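import Pool.Agent.ETCO.Color
import Pool.Agent.H34B.Dom

/-!
# Form spaces and linked data; COLOR and domination for form spaces (Theorem X of helper61), helper11
-/

set_option autoImplicit false
set_option linter.unusedSectionVars false
set_option linter.unusedSimpArgs false
set_option linter.unusedVariables false

namespace Pool.Agent.ETCO

open Pool.Agent.Helper58.PLine (QData)
open Pool.Agent.ETCP
open Pool.Agent.ETSC
open Pool.Agent.ETCISO (E dl Rk2)
open Pool.Agent.ESL (FS IsAlt Linked Lx wdL D co an an_co co_an)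

variable {V : Type} [AddCommGroup V] [Module (ZMod 2) V]

/-- `R` is the space of all forms with `k x ∈ L_x` -/
def Refl (R : FS V) : Prop := ∀ k : ESL.Fm V, (∀ x, k x ∈ Lx R x) → k ∈ R

/-- `E` is a perfect subspace -/
def Perf (R : FS V) (E : Submodule (ZMod 2) (D V)) : Prop :=
  ∀ b ∈ E, b ≠ 0 → ∀ x h, h ∈ co E → b ∈ Lx R x → b ∈ Lx R (x + h)

/-- the data of a form space -/
def dtR (R : FS V) (hA : IsAlt R) (hL : Linked R) [Finite V] : QData V (R → ZMod 2) where
  q x y := fun ρ => (ρ : ESL.Fm V) x y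
  z := fun _ => 0
  e := 0
  symm x y := by
    funext ρ
    exact ESL.symm_of_alt (hA ρ ρ.2) x y
  add x y w := by
    constructor
    · intro h
      funext ρ
      have h1 : (ρ : ESL.Fm V) x y = (ρ : ESL.Fm V) x w := congrFun h ρ
      show (ρ : ESL.Fm V) x (y + w) = 0
      rw [map_add, h1]
      exact CharTwo.add_self_eq_zero _
    · intro h
      funext ρ
      have h1 : (ρ : ESL.Fm V) x (y + w) = 0 := congrFun h ρ
      rw [map_add] at h1
      exact z2add h1
  diag x := by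
    funext ρ
    show (ρ : ESL.Fm V) x (x + 0) = 0
    rw [add_zero]
    exact hA ρ ρ.2 x
  link a b c d h := by
    classical
    by_cases hm : b + d ∈ co (Lx R a) ⊔ co (Lx R c)
    · obtain ⟨u, hu, v, hv, e⟩ := Submodule.mem_sup.1 hm
      refine ⟨b + u, ?_, ?_⟩
      · funext ρ
        show (ρ : ESL.Fm V) a b = (ρ : ESL.Fm V) a (b + u)
        rw [map_add, hu _ ⟨ρ, ρ.2, rfl⟩, add_zero]
      · funext ρ
        show (ρ : ESL.Fm V) c d = (ρ : ESL.Fm V) c (b + u)
        have e2 : b + u = d + v := by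
          have e3 : b + u + (d + v) = 0 := by
            have e4 : b + u + (d + v) = (b + d) + (u + v) := by abel
            rw [e4, e]
            exact ZModModule.add_self _
          exact Pool.Agent.Helper58.PLine.eq_of_add_eq_zero e3
        rw [e2, map_add, hv _ ⟨ρ, ρ.2, rfl⟩, add_zero]
    · exfalso
      obtain ⟨l, hl1, hl⟩ := Pool.Agent.Helper58.PLine.exists_functional hm
      have ha : l ∈ Lx R a := by
        rw [← an_co (Lx R a)]
        exact fun v hv => hl v (Submodule.mem_sup_left hv)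
      have hc : l ∈ Lx R c := by
        rw [← an_co (Lx R c)]
        exact fun v hv => hl v (Submodule.mem_sup_right hv)
      obtain ⟨k, hk, hka⟩ := ha
      obtain ⟨k', hk', hkc⟩ := hc
      obtain ⟨m, hmR, m1, m2⟩ := hL k hk k' hk' a c (hka.trans hkc.symm)
      have h1 : m a b = m c d := congrFun h ⟨m, hmR⟩
      rw [m1, m2, hka] at h1
      rw [map_add, h1] at hl1
      have : l d + l d = 0 := CharTwo.add_self_eq_zero _
      rw [this] at hl1
      exact zero_ne_one hl1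

section

variable [Finite V] {R : FS V} (hA : IsAlt R) (hL : Linked R)

theorem dtR_e : (dtR R hA hL).e = 0 := rfl

theorem C_iff {x v : V} : C (dtR R hA hL) x v ↔ v ∈ co (Lx R x) := by
  constructor
  · intro h
    rintro _ ⟨k, hk, rfl⟩
    exact congrFun h ⟨k, hk⟩
  · intro h
    funext ρ
    exact h _ ⟨ρ, ρ.2, rfl⟩

theorem PP_iff {b : D V} {x : V} : ETSC.PP (dtR R hA hL) b x ↔ b ∈ Lx R x := by
  constructor
  · intro h
    rw [← an_co (Lx R x)]
    intro v hv
    exact h v ((C_iff hA hL).2 hv)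
  · intro h v hv
    exact (C_iff hA hL).1 hv b h

theorem R_le : R ≤ ETSC.R (dtR R hA hL) := by
  intro k hk x v h
  exact congrFun h ⟨k, hk⟩

theorem R_iff (hR : Refl R) {k : ESL.Fm V} : k ∈ ETSC.R (dtR R hA hL) ↔ k ∈ R := by
  constructor
  · intro h
    apply hR
    intro x
    exact (PP_iff hA hL).1 (PP_of h rfl)
  · intro h
    exact R_le hA hL h

theorem emb : Emb (dtR R hA hL) := by
  intro x v z w h
  funext ρ
  exact h ρ (R_le hA hL ρ.2)

theorem wd_eq (a b : D V) : wd a b = wdL a b := rfl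

include hA hL in
/-- **COLOR and Lemma PB for form spaces** -/
theorem colorT (hR : Refl R) {l th : D V} (hl : l ≠ 0) (hth : th ≠ 0) (hne : th ≠ l)
    (h : wdL l th ∈ R) :
    ∃ (E : Submodule (ZMod 2) (D V)) (eta theta : D V), Perf R E ∧ eta ∈ E ∧ theta ∈ E ∧
      eta ≠ 0 ∧ theta ≠ 0 ∧ theta ≠ eta ∧ (∀ mu ∈ E, wdL eta mu ∈ R) ∧ l ∈ E ∧ th ∈ E := by
  classical
  have hS : wd l th ∈ ETSC.R (dtR R hA hL) := R_le hA hL h
  have hX : Rk2 (dtR R hA hL) (l.prod th) := by
    refine ⟨rfl, ?_, ?_⟩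
    · -- the two functionals are independent
      have hex : ∀ f g : D V, f ≠ 0 → g ≠ 0 → g ≠ f → ∃ v, f v = 1 ∧ g v = 0 := by
        intro f g hf hg hfg
        by_contra hc
        push Not at hc
        -- `f v = 1 → g v = 1`
        have h1 : ∀ v, f v = 1 → g v = 1 := fun v hv => z2ne (hc v hv)
        obtain ⟨v0, hv0⟩ : ∃ v, f v = 1 := by
          by_contra hn
          push Not at hn
          apply hf
          apply LinearMap.ext
          intro v
          rcases z2 (f v) with e | e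
          · exact e
          · exact absurd e (hn v)
        apply hfg
        apply LinearMap.ext
        intro v
        rcases z2 (f v) with e | e
        · have h3 := h1 (v + v0) (by rw [map_add, e, hv0, zero_add])
          rw [map_add, h1 v0 hv0] at h3
          rw [e]
          have f' : ∀ a : ZMod 2, a + 1 = 1 → a = 0 := by decide
          exact f' _ h3
        · rw [h1 v e, e]
      obtain ⟨v1, a1, a2⟩ := hex l th hl hth hne
      obtain ⟨v2, b1, b2⟩ := hex th l hth hl (Ne.symm hne)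
      rintro ⟨i, j⟩
      refine ⟨i • v1 + j • v2, ?_⟩
      show (l (i • v1 + j • v2), th (i • v1 + j • v2)) = (i, j)
      rw [map_add, map_add, map_smul, map_smul, map_smul, map_smul, a1, a2, b1, b2]
      simp
    · intro a b hc
      exact hS a b hc
  obtain ⟨i, hi, hG⟩ := color hX
  obtain ⟨eta, Y, X, hle, hf⟩ := hG.exists_full
  have hlY : ∀ y ∈ Y, l y = 0 := fun y hy => congrArg Prod.fst (hX.T_ker (hle hy))
  have htY : ∀ y ∈ Y, th y = 0 := fun y hy => congrArg Prod.snd (hX.T_ker (hle hy))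
  have hco : co (an Y) = Y := co_an Y
  have heta : eta ≠ 0 := by
    rintro rfl
    obtain ⟨v, hv⟩ := X.ne
    exact zero_ne_one hv
  have htheta : ∃ theta : D V, (∀ y ∈ Y, theta y = 0) ∧ theta ≠ 0 ∧ theta ≠ eta := by
    by_cases he : l = eta
    · exact ⟨th, htY, hth, fun e => hne (e.trans he.symm)⟩
    · exact ⟨l, hlY, hl, he⟩
  obtain ⟨theta, t1, t2, t3⟩ := htheta
  refine ⟨an Y, eta, theta, ?_, X.le, t1, heta, t2, t3, ?_, hlY, htY⟩
  · intro b hb hb0 x h' hh hx
    rw [hco] at hh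
    rw [← PP_iff hA hL] at hx ⊢
    exact X.per hf hb hx hh
  · intro mu hmu
    rw [← R_iff hA hL hR]
    exact X.wd_mem hmu

/-- a block of the form space -/
def Block (R : FS V) (E : Submodule (ZMod 2) (D V)) : Prop :=
  (∃ w, E = LinearMap.range w ∧ H34B.PAtom R w) ∨
  (Perf R E ∧ ∃ eta theta : D V, eta ∈ E ∧ theta ∈ E ∧ eta ≠ 0 ∧ theta ≠ 0 ∧ theta ≠ eta ∧
    ∀ mu ∈ E, wdL eta mu ∈ R)

/-- every sharp functional has a form of rank two -/
def SRF (R : FS V) : Prop :=
  ∀ l : D V, l ≠ 0 → (∃ x, l ∈ Lx R x) →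
    (∀ c, (∀ r ∈ R, l ∈ LinearMap.range r → c ∈ LinearMap.range r) → c = 0 ∨ c = l) →
    ∃ th : D V, th ≠ 0 ∧ th ≠ l ∧ wdL l th ∈ R

/-- every functional dominates an element of a block -/
def DomB (R : FS V) : Prop :=
  ∀ b : D V, b ≠ 0 → (∃ x, b ∈ Lx R x) →
    ∃ E, Block R E ∧ ∃ c ∈ E, c ≠ 0 ∧ ∀ r ∈ R, b ∈ LinearMap.range r → c ∈ LinearMap.range r

include hA hL in
/-- **Theorem C and COLOR**: domination -/
theorem domB (hR : Refl R) (hSR : SRF R) : DomB R := by
  classical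
  intro b hb hx
  obtain ⟨x, hx⟩ := hx
  have hx' : ∃ x, ETSC.PP (dtR R hA hL) b x := ⟨x, (PP_iff hA hL).2 hx⟩
  have he : (dtR R hA hL).e = 0 := rfl
  have hS : Emb (dtR R hA hL) := emb hA hL
  obtain ⟨c, hc0, hc, hm⟩ := exists_min (S := dtR R hA hL) hb
  have hdom : ∀ δ ∈ Ec (dtR R hA hL) b, ∀ r ∈ R, b ∈ LinearMap.range r → δ ∈ LinearMap.range r :=
    fun δ hδ r hr hbr => hδ r (R_le hA hL hr) hbr
  have hex : ∀ δ ∈ Ec (dtR R hA hL) b, ∃ x, δ ∈ Lx R x := by
    intro δ hδ
    obtain ⟨k, hk, e⟩ := hx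
    obtain ⟨y, hy⟩ := hdom δ hδ k hk ⟨x, e⟩
    exact ⟨y, k, hk, hy⟩
  have hle : Ec (dtR R hA hL) c ≤ Ec (dtR R hA hL) b := Ec_le hc
  by_cases h4 : ∀ β ∈ Ec (dtR R hA hL) c, β ≠ 0 → ∃ γ ∈ Ec (dtR R hA hL) c, γ ≠ 0 ∧ β ≠ γ
  · -- a perfect atom
    obtain ⟨ω, h1, h2, h3⟩ := thmC he hS hm h4 ⟨c, self_mem c, hc0, by
      obtain ⟨y, hy⟩ := hex c hc
      exact ⟨y, (PP_iff hA hL).2 hy⟩⟩
    refine ⟨LinearMap.range ω, Or.inl ⟨ω, rfl, (R_iff hA hL hR).1 h1, ?_, ?_⟩, c, ?_, hc0,
      hdom c hc⟩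
    · rintro rfl
      apply hc0
      have h5 : c ∈ Ec (dtR R hA hL) c := self_mem c
      rw [← h2] at h5
      obtain ⟨y, hy⟩ := h5
      rw [← hy]
      rfl
    · intro q β hβ hβ0 hq
      rw [h2] at hβ
      exact (h3 q β hβ hβ0).1 ((PP_iff hA hL).2 hq)
    · rw [h2]
      exact self_mem c
  · -- a sharp functional
    push Not at h4
    obtain ⟨β, hβ, hβ0, h5⟩ := h4
    have hβb : β ∈ Ec (dtR R hA hL) b := hle hβ
    obtain ⟨th, t0, t1, ht⟩ := hSR β hβ0 (hex β hβb) (by
      intro d hd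
      by_contra hn
      push Not at hn
      have h6 : d ∈ Ec (dtR R hA hL) β := by
        intro ρ hρ hx
        exact hd ρ ((R_iff hA hL hR).1 hρ) hx
      rw [hm β hβ hβ0] at h6
      exact hn.2 (h5 d h6 hn.1).symm)
    obtain ⟨E, eta, theta, hP, e1, e2, e3, e4, e5, e6, e7, e8⟩ := colorT hA hL hR hβ0 t0 t1 ht
    exact ⟨E, Or.inr ⟨hP, eta, theta, e1, e2, e3, e4, e5, e6⟩, β, e7, hβ0, hdom β hβb⟩

include hA in
/-- the T-trick: forms of rank two -/
theorem wd_mem_iff (hR : Refl R) {l th : D V} :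
    wdL l th ∈ R ↔ (∀ x v, v ∈ co (Lx R x) → l x = 0 → l v = 1 → th x = 0) ∧
      (∀ x v, v ∈ co (Lx R x) → l x = 1 → l v = 1 → th x = th v) := by
  have happ : ∀ x v, wdL l th x v = l x * th v + th x * l v := fun _ _ => rfl
  constructor
  · intro h
    refine ⟨fun x v hv h0 h1 => ?_, fun x v hv h0 h1 => ?_⟩
    · have h2 : wdL l th x v = 0 := hv _ ⟨_, h, rfl⟩
      rw [happ, h0, h1, zero_mul, zero_add, mul_one] at h2
      exact h2
    · have h2 : wdL l th x v = 0 := hv _ ⟨_, h, rfl⟩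
      rw [happ, h0, h1, one_mul, mul_one] at h2
      exact (z2add h2).symm
  · rintro ⟨h1, h2⟩
    apply hR
    intro x
    rw [← an_co (Lx R x)]
    intro v hv
    rw [happ]
    have hs : x ∈ co (Lx R v) := by
      rintro _ ⟨k, hk, rfl⟩
      rw [ESL.symm_of_alt (hA k hk)]
      exact hv _ ⟨k, hk, rfl⟩
    rcases z2 (l x) with a | a <;> rcases z2 (l v) with b | b
    · rw [a, b, zero_mul, mul_zero, add_zero]
    · rw [a, b, h1 x v hv a b, zero_mul, zero_mul, add_zero]
    · rw [a, b, h1 v x hs b a, mul_zero, mul_zero, add_zero]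
    · rw [a, b, h2 x v hv a b, one_mul, mul_one]
      exact CharTwo.add_self_eq_zero _

end

end Pool.Agent.ETCO
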