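import Pool.Agent.ETCISO.R2b
import Pool.Agent.ETSC.ThmC

/-!
# COLOR (helper53, note 2768) and the perfect blocks of rank two forms (helper61, note 3145), helper11

A form of rank two vanishing on the commuting pairs gives a hyperplane `ker η` and a subspace `Y`
such that the sets `P_b`, `b ∈ Y^⊥`, are `Y`-periodic.
-/

set_option autoImplicit false
set_option linter.unusedSectionVars false
set_option linter.unusedSimpArgs false
set_option linter.unusedVariables false

namespace Pool.Agent.ETCO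

open Pool.Agent.Helper58.PLine (QData)
open Pool.Agent.ETCP
open Pool.Agent.ETSC
open Pool.Agent.ETCISO (E dl dl_zero dl_self dl_comm dl_add dl_one dl_zero_iff col3 exists_other
  third_ne Rk2 A Ti)

variable {V Q : Type} [AddCommGroup V] [Module (ZMod 2) V] {S : QData V Q}

/-- the result of COLOR: a hyperplane `ker η` and a subspace `Y` -/
structure GY (S : QData V Q) (η : Dl V) (Y : Submodule (ZMod 2) V) : Prop where
  he : S.e = 0
  ne : ∃ v, η v = 1
  le : ∀ y ∈ Y, η y = 0
  out : ∀ v w, η v = 1 → C S v w → w ∈ Y ∨ w + v ∈ Y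
  ins : ∀ v w, η v = 0 → v ∉ Y → C S v w → η w = 0
  mt : ∀ h ∈ Y, ∃ v, C S h v ∧ η v = 1

section color

variable {π : V →ₗ[ZMod 2] E}

/-- the functional with kernel `{0, i}` -/
def fn (π : V →ₗ[ZMod 2] E) (i : E) : Dl V where
  toFun v := dl i (π v)
  map_add' := by
    intro a b
    rw [map_add, dl_add]
  map_smul' := by
    intro c a
    rw [map_smul, RingHom.id_apply]
    rcases z2 c with rfl | rfl
    · rw [zero_smul, zero_smul, dl_comm, dl_zero]
    · rw [one_smul, one_smul]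

theorem fn_apply (i : E) (v : V) : fn π i v = dl i (π v) := rfl

/-- **COLOR**, from Theorem R2 -/
theorem color [Finite V] (X : Rk2 S π) : ∃ i : E, i ≠ 0 ∧ GY S (fn π i) X.T := by
  classical
  have hcase : ∃ i : E, i ≠ 0 ∧ ∀ k, k ≠ 0 → k ≠ i → ∀ z, ¬ Ti S π k z := by
    by_cases h : ∃ i z, i ≠ 0 ∧ Ti S π i z
    · obtain ⟨i, z, hi, hz⟩ := h
      exact ⟨i, hi, fun k hk hki z' hz' => X.R2 hi hk (fun e => hki e.symm) hz hz'⟩
    · push Not at h
      exact ⟨(1, 0), by decide, fun k hk _ z hz => h k z hk hz⟩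
  obtain ⟨i, hi, hno⟩ := hcase
  have key : ∀ k, k ≠ 0 → k ≠ i → ∀ z, A S π k z → z ∈ X.T := by
    intro k hk hki z hz
    by_contra hn
    exact hno k hk hki z (X.Ti_of hk hz hn)
  refine ⟨i, hi, X.he, ?_, ?_, ?_, ?_, ?_⟩
  · obtain ⟨j, hj, hji⟩ := exists_other hi
    obtain ⟨v, hv⟩ := X.sur j
    refine ⟨v, ?_⟩
    rw [fn_apply, hv]
    exact dl_one.2 ⟨hi, hj, fun e => hji e.symm⟩
  · intro y hy
    rw [fn_apply, X.T_ker hy, dl_comm, dl_zero]
  · intro v w hv hc
    rw [fn_apply, dl_one] at hv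
    have h1 := X.hd _ _ hc
    rw [dl_zero_iff] at h1
    rcases h1 with h | h | h
    · exact absurd h hv.2.1
    · left
      exact key (π v) hv.2.1 (fun e => hv.2.2 e.symm) w ⟨h, v, rfl, hc.symm⟩
    · right
      refine key (π v) hv.2.1 (fun e => hv.2.2 e.symm) (w + v) ⟨?_, v, rfl, ?_⟩
      · rw [map_add, ← h]
        exact ZModModule.add_self _
      · exact (hc.add (C.self X.he v)).symm
  · intro v w hv hnY hc
    rw [fn_apply, dl_zero_iff] at hv
    have h1 := X.hd _ _ hc
    rw [fn_apply]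
    rcases hv with h | h | h
    · exact absurd h hi
    · by_contra hne
      have hw := dl_one.1 (z2ne hne)
      exact hnY (key (π w) hw.2.1 (fun e => hw.2.2 e.symm) v ⟨h, w, rfl, hc⟩)
    · rw [← h] at h1
      exact h1
  · intro h hh
    obtain ⟨j, hj, hji⟩ := exists_other hi
    obtain ⟨-, w, hw, hc⟩ := hh j
    refine ⟨w, hc, ?_⟩
    rw [fn_apply, hw]
    exact dl_one.2 ⟨hi, hj, fun e => hji e.symm⟩

end color

/-- the form `a ∧ b` -/
def wd (a b : Dl V) : Fm V := a.smulRight b + b.smulRight a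

theorem wd_apply (a b : Dl V) (x v : V) : wd a b x v = a x * b v + b x * a v := rfl

namespace GY

variable {η : Dl V} {Y : Submodule (ZMod 2) V} (X : GY S η Y)
include X

/-- values of a functional killing `Y` on commuting pairs -/
theorem hd {l : Dl V} (hl : ∀ y ∈ Y, l y = 0) {a b : V} (hc : C S a b) :
    η a * l b + l a * η b = 0 := by
  rcases z2 (η a) with h | h
  · by_cases hY : a ∈ Y
    · rw [h, hl a hY, zero_mul, zero_mul, add_zero]
    · rw [h, X.ins a b h hY hc, zero_mul, mul_zero, add_zero]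
  · rcases X.out a b h hc with h1 | h1
    · rw [hl b h1, X.le b h1, mul_zero, mul_zero, add_zero]
    · have e1 := X.le _ h1
      have e2 := hl _ h1
      rw [map_add] at e1 e2
      rw [z2add e1, z2add e2, mul_comm]
      exact CharTwo.add_self_eq_zero _

/-- the forms `η ∧ μ` -/
theorem wd_mem {l : Dl V} (hl : ∀ y ∈ Y, l y = 0) : wd η l ∈ R S := by
  intro x v h
  rw [wd_apply]
  exact X.hd hl h

/-- **note 2768 (6)**: a smaller `Y`, unless `V_h + Y = V` for all `h ∈ Y` -/
theorem step [Finite V] {h : V} (hh : h ∈ Y) (hne : Y ⊔ S.ann h ≠ ⊤) :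
    ∃ (η' : Dl V) (Y' : Submodule (ZMod 2) V), GY S η' Y' ∧ Y' < Y := by
  classical
  obtain ⟨w0, hw0⟩ : ∃ w0, w0 ∉ Y ⊔ S.ann h := by
    by_contra hc
    push Not at hc
    exact hne (eq_top_iff.2 fun w _ => hc w)
  obtain ⟨l, hl1, hl⟩ := Pool.Agent.Helper58.PLine.exists_functional hw0
  have hlY : ∀ y ∈ Y, l y = 0 := fun y hy => hl y (Submodule.mem_sup_left hy)
  have hlh : ∀ v, C S h v → l v = 0 := fun v hv => hl v (Submodule.mem_sup_right hv)
  obtain ⟨v1, hv1, hv2⟩ := X.mt h hh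
  have hX : Rk2 S (η.prod l) := by
    refine ⟨X.he, ?_, ?_⟩
    · -- `v1 : (1, 0)`, and `w0` or `w0 + v1 : (0, 1)`
      have h2 : l v1 = 0 := hlh v1 hv1
      have h3 : ∃ w1, η w1 = 0 ∧ l w1 = 1 := by
        rcases z2 (η w0) with e | e
        · exact ⟨w0, e, hl1⟩
        · refine ⟨w0 + v1, ?_, ?_⟩
          · rw [map_add, e, hv2]; decide
          · rw [map_add, hl1, h2]; decide
      obtain ⟨w1, e1, e2⟩ := h3
      rintro ⟨i, j⟩
      refine ⟨i • v1 + j • w1, ?_⟩
      show (η (i • v1 + j • w1), l (i • v1 + j • w1)) = (i, j)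
      rw [map_add, map_add, map_smul, map_smul, map_smul, map_smul, hv2, h2, e1, e2]
      simp
    · intro a b hc
      show η a * l b + l a * η b = 0
      exact X.hd hlY hc
  obtain ⟨i, hi, hG⟩ := color hX
  refine ⟨_, _, hG, ?_⟩
  have hle : hX.T ≤ Y := by
    intro z hz
    by_contra hn
    obtain ⟨h0, w, hw, hc⟩ := hz (1, 0)
    have h1 : η z = 0 := congrArg Prod.fst h0
    have h2 : η w = 1 := congrArg Prod.fst hw
    rw [X.ins z w h1 hn hc] at h2
    exact zero_ne_one h2
  refine lt_of_le_of_ne hle ?_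
  intro e
  have h1 : h ∈ hX.T := by rw [e]; exact hh
  obtain ⟨h0, w, hw, hc⟩ := h1 (0, 1)
  have h2 : l w = 1 := congrArg Prod.snd hw
  rw [hlh w hc] at h2
  exact zero_ne_one h2

/-- a final pair below a given one -/
theorem exists_full [Finite V] : ∃ (η' : Dl V) (Y' : Submodule (ZMod 2) V), GY S η' Y' ∧ Y' ≤ Y ∧
    ∀ h ∈ Y', Y' ⊔ S.ann h = ⊤ := by
  classical
  have hfin : Module.Finite (ZMod 2) V := Module.Finite.of_finite
  have key : ∀ (n : ℕ) (η : Dl V) (Y : Submodule (ZMod 2) V), GY S η Y →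
      Module.finrank (ZMod 2) Y = n → ∃ (η' : Dl V) (Y' : Submodule (ZMod 2) V), GY S η' Y' ∧
        Y' ≤ Y ∧ ∀ h ∈ Y', Y' ⊔ S.ann h = ⊤ := by
    intro n
    induction n using Nat.strong_induction_on with
    | _ n ih =>
      intro η Y X hn
      by_cases hf : ∀ h ∈ Y, Y ⊔ S.ann h = ⊤
      · exact ⟨η, Y, X, le_rfl, hf⟩
      · push Not at hf
        obtain ⟨h, hh, hne⟩ := hf
        obtain ⟨η', Y', X', hlt⟩ := X.step hh hne
        obtain ⟨η'', Y'', X'', hle, hf⟩ := ih _ (hn ▸ Submodule.finrank_lt_finrank_of_lt hlt) η' Y'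
          X' rfl
        exact ⟨η'', Y'', X'', hle.trans hlt.le, hf⟩
  exact key _ η Y X rfl

/-- **Lemma PB** (helper61, note 3145): the sets `P_b`, `b ∈ Y^⊥`, are `Y`-periodic -/
theorem per (hf : ∀ h ∈ Y, Y ⊔ S.ann h = ⊤) {b : Dl V} (hb : ∀ y ∈ Y, b y = 0) {x h : V}
    (hx : PP S b x) (hh : h ∈ Y) : PP S b (x + h) := by
  by_cases hb0 : b = 0
  · rw [hb0]
    exact PP_zero _
  by_cases hbe : b = η
  · subst hbe
    have h1 : b x = 0 := hx x (C.self X.he x)
    have h2 : x ∉ Y := by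
      intro hY
      obtain ⟨v, hv, hv1⟩ := X.mt x hY
      rw [hx v hv] at hv1
      exact zero_ne_one hv1
    intro v hv
    refine X.ins (x + h) v ?_ ?_ hv
    · rw [map_add, h1, X.le h hh, add_zero]
    · intro hY
      apply h2
      have := Y.add_mem hY hh
      rwa [add_self'] at this
  -- `w0` with `η w0 = 1`, `b w0 = 0`
  obtain ⟨w0, hw1, hw2⟩ : ∃ w0, η w0 = 1 ∧ b w0 = 0 := by
    by_contra hn
    push Not at hn
    obtain ⟨w1, hw1⟩ := X.ne
    have e1 : ∀ w, η w = 1 → b w = 1 := fun w hw => z2ne (hn w hw)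
    apply hbe
    apply LinearMap.ext
    intro w
    rcases z2 (η w) with e | e
    · have h3 := e1 (w + w1) (by rw [map_add, e, hw1, zero_add])
      rw [map_add, e1 w1 hw1] at h3
      rw [e]
      have f : ∀ a : ZMod 2, a + 1 = 1 → a = 0 := by decide
      exact f _ h3
    · rw [e1 w e, e]
  intro v hv
  have e1 : S.q x v = S.q h v := q_eq' hv
  have h1 : w0 + v ∈ Y ⊔ S.ann h := by rw [hf h hh]; trivial
  obtain ⟨y, hy, v', hv', e2⟩ := Submodule.mem_sup.1 h1
  have e3 : v + v' = w0 + y := by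
    have e4 : v + v' + (w0 + y) = 0 := by
      have e5 : v + v' + (w0 + y) = (w0 + v) + (y + v') := by abel
      rw [e5, ← e2]
      exact ZModModule.add_self _
    exact eo e4
  have e4 : S.q h v = S.q h (v + v') := by
    refine q_eq ?_
    have e5 : v + (v + v') = v' := Pool.Agent.Helper58.PLine.add_add_self v v'
    rw [e5]
    exact hv'
  have e5 : S.q x v = S.q (v + v') h := by
    rw [e1, e4, S.symm]
  have ht1 : η (v + v') = 1 := by rw [e3, map_add, hw1, X.le y hy, add_zero]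
  have ht2 : b (v + v') = 0 := by rw [e3, map_add, hw2, hb y hy, add_zero]
  obtain ⟨r, g1, g2, g3⟩ := link e5
  have k1 : b (v + r) = 0 := hx _ g1
  have k2 : b (h + r) = 0 := by
    rcases X.out _ _ ht1 g2 with k | k
    · exact hb _ k
    · have := hb _ k
      rw [map_add, ht2, add_zero] at this
      exact this
  rw [map_add] at k1 k2
  rw [hb h hh, zero_add] at k2
  rw [k2, add_zero] at k1
  exact k1

end GY

end Pool.Agent.ETCO
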