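import Pool.Agent.ETCO.Defs

/-!
# Theorem X', the converse: products of local types and group extensions satisfy `SR`
-/

set_option autoImplicit false
set_option linter.unusedSectionVars false
set_option linter.unusedVariables false

namespace Pool.Agent.ETCO

open QS Pool.Agent.H34B

theorem q_self {S : QStruct} (hneg : S.neg = 1) (a : S.G) : S.q a a = S.zero := by
  have := S.qs1 a
  rwa [hneg, one_mul] at this

theorem one_q {S : QStruct} (b : S.G) : S.q 1 b = S.zero := by
  rw [S.qs2, S.q_one]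

theorem inv_self {S : QStruct} (a : S.G) : a⁻¹ = a := inv_eq_of_mul_eq_one_left (S.exp_two a)

theorem mul_self_mul {S : QStruct} (a b : S.G) : a * (a * b) = b := by
  rw [← mul_assoc, S.exp_two, one_mul]

/-- commuting with a product -/
theorem q_mul {S : QStruct} {a b c : S.G} (h1 : S.q a b = S.zero) (h2 : S.q a c = S.zero) :
    S.q a (b * c) = S.zero := (S.qs3 a b c).1 (h1.trans h2.symm)

theorem PSet_le {S : QStruct} (hneg : S.neg = 1) {H : Subgroup S.G} {x : S.G}
    (hx : x ∈ PSet S H) : x ∈ H := hx x (q_self hneg x)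

theorem ZSet_le {S : QStruct} {H : Subgroup S.G} : Subgroup.closure (ZSet S H) ≤ H :=
  (Subgroup.closure_le H).2 fun _ hx => hx.1

theorem ne_top_of_index {G : Type} [Group G] {H : Subgroup G} (h : H.index = 2) : H ≠ ⊤ := by
  rintro rfl
  rw [Subgroup.index_top] at h
  omega

/-! ### isomorphisms -/

section iso

variable {S T : QStruct}

theorem Iso.symm (h : Iso S T) : Iso T S := by
  obtain ⟨φ, h1, h2⟩ := h
  refine ⟨φ.symm, ?_, ?_⟩
  · rw [← h1, MulEquiv.symm_apply_apply]
  · intro a b c d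
    have := h2 (φ.symm a) (φ.symm b) (φ.symm c) (φ.symm d)
    rw [φ.apply_symm_apply, φ.apply_symm_apply, φ.apply_symm_apply, φ.apply_symm_apply] at this
    exact this.symm

theorem Iso.zero {φ : S.G ≃* T.G}
    (h2 : ∀ a b c d, S.q a b = S.q c d ↔ T.q (φ a) (φ b) = T.q (φ c) (φ d)) (a b : S.G) :
    S.q a b = S.zero ↔ T.q (φ a) (φ b) = T.zero := by
  have := h2 a b 1 1
  rwa [S.q_one, map_one, T.q_one] at this

theorem neg_iso (h : Iso S T) (hneg : S.neg = 1) : T.neg = 1 := by
  obtain ⟨φ, h1, h2⟩ := h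
  rw [← h1, hneg, map_one]

theorem gv_iso (h : Iso S T) (hS : GroupValued S) : GroupValued T := by
  classical
  obtain ⟨φ, h1, h2⟩ := Iso.symm h
  obtain ⟨B, hB, i, hi, hadd⟩ := hS
  choose f g hfg using T.surj
  have hval : ∀ a b, S.q (φ (f (T.q a b))) (φ (g (T.q a b))) = S.q (φ a) (φ b) := by
    intro a b
    rw [← h2, hfg]
  refine ⟨B, hB, fun β => i (S.q (φ (f β)) (φ (g β))), ?_, ?_⟩
  · intro β γ e
    have e1 := (h2 _ _ _ _).2 (hi e)
    rw [hfg, hfg] at e1
    exact e1
  · intro a b c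
    show i (S.q (φ (f (T.q a (b * c)))) (φ (g (T.q a (b * c))))) =
      i (S.q (φ (f (T.q a b))) (φ (g (T.q a b)))) + i (S.q (φ (f (T.q a c))) (φ (g (T.q a c))))
    rw [hval, hval, hval, map_mul, hadd]

theorem bad_comap {φ : S.G ≃* T.G}
    (h2 : ∀ a b c d, S.q a b = S.q c d ↔ T.q (φ a) (φ b) = T.q (φ c) (φ d)) {H : Subgroup T.G}
    (hH : Sharp T H) (hc : Subgroup.closure (ZSet T H) = H) {K : Subgroup S.G}
    (hK : ∀ x, x ∈ K ↔ φ x ∈ H) : Sharp S K ∧ Subgroup.closure (ZSet S K) = K := by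
  have h0 := Iso.zero h2
  obtain ⟨hi, ⟨x0, hx0⟩, hle⟩ := hH
  have hKe : K = H.comap φ.toMonoidHom := by
    ext x
    exact hK x
  have hP : ∀ x, x ∈ PSet S K ↔ φ x ∈ PSet T H := by
    intro x
    constructor
    · intro hx y hy
      have e : S.q x (φ.symm y) = S.zero := by
        rw [h0, φ.apply_symm_apply]
        exact hy
      have := (hK _).1 (hx _ e)
      rwa [φ.apply_symm_apply] at this
    · intro hx y hy
      exact (hK _).2 (hx _ ((h0 _ _).1 hy))
  -- closures are transported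
  have hcl : ∀ (A : Set T.G) (B : Set S.G), (∀ y ∈ A, φ.symm y ∈ B) →
      ∀ x, φ x ∈ Subgroup.closure A → x ∈ Subgroup.closure B := by
    intro A B hAB x hx
    have h3 : Subgroup.closure A ≤ (Subgroup.closure B).comap φ.symm.toMonoidHom :=
      (Subgroup.closure_le _).2 fun y hy => Subgroup.subset_closure (hAB y hy)
    have h4 : φ.symm (φ x) ∈ Subgroup.closure B := h3 hx
    rwa [φ.symm_apply_apply] at h4
  have hZ : ∀ y ∈ ZSet T H, φ.symm y ∈ ZSet S K := by
    rintro y ⟨y1, y2, z, hz, hyz⟩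
    refine ⟨?_, ?_, φ.symm z, ?_, ?_⟩
    · rw [hK, φ.apply_symm_apply]
      exact y1
    · intro e
      apply y2
      rw [← φ.apply_symm_apply y, e, map_one]
    · rw [hK, φ.apply_symm_apply]
      exact hz
    · rw [h0, φ.apply_symm_apply, φ.apply_symm_apply]
      exact hyz
  refine ⟨⟨?_, ⟨φ.symm x0, ?_⟩, ?_⟩, ?_⟩
  · rw [← hi, hKe]
    exact Subgroup.index_comap_of_surjective H φ.surjective
  · rw [hP, φ.apply_symm_apply]
    exact hx0
  · intro x hx
    refine hcl _ _ ?_ x (hle ((hK x).1 hx))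
    rintro _ ⟨a, ha, b, hb, rfl⟩
    refine ⟨φ.symm a, ?_, φ.symm b, ?_, (map_mul φ.symm a b).symm⟩
    · rw [hP, φ.apply_symm_apply]; exact ha
    · rw [hP, φ.apply_symm_apply]; exact hb
  · apply le_antisymm ZSet_le
    intro x hx
    refine hcl _ _ hZ x ?_
    rw [hc]
    exact (hK x).1 hx

theorem sr_iso (h : Iso S T) (hS : SR S) : SR T := by
  obtain ⟨φ, h1, h2⟩ := h
  intro H hH hc
  have h3 := bad_comap h2 hH hc (K := H.comap φ.toMonoidHom) (fun x => Iff.rfl)
  exact hS _ h3.1 h3.2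

end iso

/-! ### structures with at most two quaternions -/

section loc

variable {S : QStruct}

theorem q_two (h : Nat.card S.Q ≤ 2) {a b c d : S.G} (h1 : S.q a b ≠ S.zero)
    (h2 : S.q c d ≠ S.zero) [Finite S.Q] : S.q a b = S.q c d := by
  classical
  by_contra hne
  have := Fintype.ofFinite S.Q
  have h3 : ({S.zero, S.q a b, S.q c d} : Finset S.Q).card = 3 := by
    rw [Finset.card_eq_three]
    exact ⟨_, _, _, h1.symm, h2.symm, hne, rfl⟩
  have h4 := Finset.card_le_univ ({S.zero, S.q a b, S.q c d} : Finset S.Q)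
  rw [h3, ← Nat.card_eq_fintype_card] at h4
  omega

theorem finQ (hf : Finite S.G) : Finite S.Q :=
  Finite.of_surjective (fun p : S.G × S.G => S.q p.1 p.2) (by
    intro β
    obtain ⟨a, b, h⟩ := S.surj β
    exact ⟨(a, b), h⟩)

theorem gv_loc (hf : Finite S.G) (h : Nat.card S.Q ≤ 2) : GroupValued S := by
  classical
  have hfQ := finQ hf
  refine ⟨ZMod 2, inferInstance, fun β => if β = S.zero then 0 else 1, ?_, ?_⟩
  · intro β γ e
    obtain ⟨a, b, rfl⟩ := S.surj β
    obtain ⟨c, d, rfl⟩ := S.surj γ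
    by_cases h1 : S.q a b = S.zero <;> by_cases h2 : S.q c d = S.zero
    · rw [h1, h2]
    · simp only [h1, h2, if_true, if_false] at e
      exact absurd e zero_ne_one
    · simp only [h1, h2, if_true, if_false] at e
      exact absurd e one_ne_zero
    · exact q_two h h1 h2
  · intro a b c
    by_cases h1 : S.q a b = S.zero <;> by_cases h2 : S.q a c = S.zero
    · have h3 := q_mul h1 h2
      simp only [h1, h2, h3, if_true, add_zero]
    · have h3 : S.q a (b * c) ≠ S.zero := by
        intro e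
        exact h2 (((S.qs3 a b c).2 e).symm.trans h1)
      simp only [h1, h2, h3, if_true, if_false, zero_add]
    · have h3 : S.q a (b * c) ≠ S.zero := by
        intro e
        exact h1 (((S.qs3 a b c).2 e).trans h2)
      simp only [h1, h2, h3, if_true, if_false, add_zero]
    · have h3 : S.q a (b * c) = S.zero := (S.qs3 a b c).1 (q_two h h1 h2)
      simp only [h1, h2, h3, if_true, if_false]
      decide

theorem sr_loc (hf : Finite S.G) (hneg : S.neg = 1) (h : Nat.card S.Q ≤ 2) : SR S := by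
  have hfQ := finQ hf
  rintro H ⟨hi, ⟨x0, hx0⟩, hle⟩ -
  -- elements of `PSet` commute exactly with `H`
  have key : ∀ x ∈ PSet S H, ∀ y ∈ H, S.q x y = S.zero := by
    intro x hx y hy
    obtain ⟨z, hz⟩ : ∃ z, z ∉ H := by
      by_contra hc
      push Not at hc
      exact ne_top_of_index hi ((Subgroup.eq_top_iff' H).2 hc)
    have h1 : S.q x z ≠ S.zero := fun e => hz (hx z e)
    by_contra h2
    have h3 : S.q x (y * z) = S.zero := (S.qs3 x y z).1 (q_two h h2 h1)
    have h4 := hx _ h3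
    exact hz ((H.mul_mem_cancel_left hy).1 h4)
  -- products are in the radical
  have hrad : ∀ z ∈ H, ∀ y, S.q z y = S.zero := by
    intro z hz
    refine Subgroup.closure_induction (p := fun z _ => ∀ y, S.q z y = S.zero) ?_ ?_ ?_ ?_ (hle hz)
    · rintro _ ⟨a, ha, b, hb, rfl⟩ y
      rw [S.qs2, ← S.qs3]
      by_cases hy : y ∈ H
      · rw [S.qs2 y a, S.qs2 y b, key a ha y hy, key b hb y hy]
      · rw [S.qs2 y a, S.qs2 y b]
        exact q_two h (fun e => hy (ha y e)) (fun e => hy (hb y e))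
    · intro y
      exact one_q y
    · intro a b _ _ ha hb y
      rw [S.qs2]
      exact q_mul (by rw [S.qs2]; exact ha y) (by rw [S.qs2]; exact hb y)
    · intro a _ ha y
      rw [inv_self]
      exact ha y
  have h5 : x0 ∈ H := PSet_le hneg hx0
  apply ne_top_of_index hi
  exact (Subgroup.eq_top_iff' H).2 fun y => hx0 y (hrad x0 h5 y)

end loc

/-! ### group extensions -/

section ext

variable {T : QStruct}

theorem ext_zero {u v : (ext T).G} :
    (ext T).q u v = (ext T).zero ↔ extMap T u v = (T.zero, 1) := by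
  constructor
  · intro h
    exact congrArg Subtype.val h
  · intro h
    exact Subtype.ext h

/-- elements outside `T` are rigid -/
theorem ext_rigid (hneg : T.neg = 1) {a : T.G} {v : (ext T).G}
    (h : (ext T).q (a, Multiplicative.ofAdd 1) v = (ext T).zero) :
    v = 1 ∨ v = (a, Multiplicative.ofAdd 1) := by
  rw [ext_zero] at h
  obtain ⟨b, β⟩ := v
  rcases two_cases β with rfl | rfl
  · rw [extMap_x_one, Prod.mk.injEq] at h
    left
    rw [h.2]
    rfl
  · rw [extMap_x_x, Prod.mk.injEq, hneg, one_mul] at h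
    right
    have : a = b := (eq_iff_mul T a b).2 h.2
    rw [this]

theorem gv_ext (h : GroupValued T) : GroupValued (ext T) := by
  obtain ⟨B, hB, i, hi, hadd⟩ := h
  let _ : AddCommGroup (B × Additive T.G) := inferInstance
  refine ⟨B × Additive T.G, inferInstance, fun p => (i p.1.1, Additive.ofMul p.1.2), ?_, ?_⟩
  · rintro ⟨⟨p1, p2⟩, hp⟩ ⟨⟨r1, r2⟩, hr⟩ e
    have e1 : i p1 = i r1 := congrArg Prod.fst e
    have e2 : p2 = r2 := congrArg Prod.snd e
    apply Subtype.ext
    show (p1, p2) = (r1, r2)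
    rw [hi e1, e2]
  · intro u v w
    have e2 := extMap_snd_mul T u v w
    refine Prod.ext ?_ ?_
    · show i (T.q u.1 (v.1 * w.1)) = i (T.q u.1 v.1) + i (T.q u.1 w.1)
      exact hadd _ _ _
    · show Additive.ofMul (extMap T u (v * w)).2 =
        Additive.ofMul (extMap T u v).2 + Additive.ofMul (extMap T u w).2
      exact congrArg Additive.ofMul e2

theorem gv_of_ext (h : GroupValued (ext T)) : GroupValued T := by
  obtain ⟨B, hB, i, hi, hadd⟩ := h
  have hs : ∀ β : T.Q, ∃ p : T.G × T.G, T.q p.1 p.2 = β := by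
    intro β
    obtain ⟨a, b, e⟩ := T.surj β
    exact ⟨(a, b), e⟩
  have hp : ∀ β : T.Q, ∃ u v, extMap T u v = (β, (1 : T.G)) := by
    intro β
    obtain ⟨⟨a, b⟩, e⟩ := hs β
    exact ⟨(a, 1), (b, 1), by rw [extMap_one_one, ← e]⟩
  have hq : ∀ a b, (ext T).q (a, 1) (b, 1) = (⟨(T.q a b, 1), hp (T.q a b)⟩ : (ext T).Q) := by
    intro a b
    apply Subtype.ext
    exact extMap_one_one T a b
  refine ⟨B, hB, fun β => i ⟨(β, 1), hp β⟩, ?_, ?_⟩
  · intro β γ e
    have := congrArg Subtype.val (hi e)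
    exact congrArg Prod.fst this
  · intro a b c
    show i ⟨(T.q a (b * c), 1), _⟩ = i ⟨(T.q a b, 1), _⟩ + i ⟨(T.q a c, 1), _⟩
    rw [← hq, ← hq, ← hq, ← hadd]
    rfl

theorem sr_ext (hneg : T.neg = 1) : SR (ext T) := by
  rintro H ⟨hi, ⟨p, hp⟩, -⟩ hc
  have hneg' : (ext T).neg = 1 := by
    show (T.neg, (1 : Multiplicative (ZMod 2))) = 1
    rw [hneg]
    rfl
  -- the elements of `ZSet` are in `T`
  have h1 : ∀ u ∈ ZSet (ext T) H, u.2 = 1 := by
    rintro ⟨a, α⟩ ⟨hu, -, y, hy, hz⟩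
    rcases two_cases α with rfl | rfl
    · rfl
    · exfalso
      rcases ext_rigid hneg hz with rfl | rfl
      · exact hy H.one_mem
      · exact hy hu
  let K : Subgroup (ext T).G := (MonoidHom.snd T.G (Multiplicative (ZMod 2))).ker
  have hK : ∀ u : (ext T).G, u ∈ K ↔ u.2 = 1 := fun u => Iff.rfl
  have h2 : H ≤ K := by
    rw [← hc]
    exact (Subgroup.closure_le K).2 h1
  have hKi : K.index = 2 := by
    rw [Subgroup.index_eq_two_iff]
    refine ⟨(1, Multiplicative.ofAdd 1), ?_⟩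
    rintro ⟨b, β⟩
    rw [hK, hK]
    rcases two_cases β with rfl | rfl
    · right
      refine ⟨rfl, ?_⟩
      show ¬ ((1 : Multiplicative (ZMod 2)) * Multiplicative.ofAdd 1 = 1)
      decide
    · left
      refine ⟨?_, ?_⟩
      · show (Multiplicative.ofAdd (1 : ZMod 2)) * Multiplicative.ofAdd 1 = 1
        decide
      · show ¬ ((Multiplicative.ofAdd (1 : ZMod 2)) = 1)
        decide
  have h3 : H = K := by
    apply le_antisymm h2
    have h4 := Subgroup.relIndex_mul_index h2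
    rw [hKi, hi] at h4
    have h5 : H.relIndex K = 1 := by omega
    exact Subgroup.relIndex_eq_one.1 h5
  -- no element of `T` but `1` commutes with an element outside
  have h6 : ∀ u ∈ ZSet (ext T) H, False := by
    rintro u ⟨hu, hu1, y, hy, hz⟩
    rw [h3, hK] at hy
    obtain ⟨b, β⟩ := y
    rcases two_cases β with rfl | rfl
    · exact hy rfl
    · rw [(ext T).qs2] at hz
      rcases ext_rigid hneg hz with rfl | rfl
      · exact hu1 rfl
      · rw [h3, hK] at hu
        exact hy hu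
  have h7 : H = ⊥ := by
    rw [← hc]
    have : ZSet (ext T) H = ∅ := Set.eq_empty_iff_forall_notMem.2 fun u hu => h6 u hu
    rw [this, Subgroup.closure_empty]
  have h8 : p ∈ H := PSet_le hneg' hp
  have h9 : p = 1 := by
    rw [h7] at h8
    exact Subgroup.mem_bot.1 h8
  apply ne_top_of_index hi
  exact (Subgroup.eq_top_iff' H).2 fun y => hp y (by rw [h9]; exact one_q y)

end ext

/-! ### products -/

section prod

variable {A B : QStruct}

theorem prod_zero {u v : (prod A B).G} : (prod A B).q u v = (prod A B).zero ↔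
    A.q u.1 v.1 = A.zero ∧ B.q u.2 v.2 = B.zero := by
  show (A.q u.1 v.1, B.q u.2 v.2) = (A.zero, B.zero) ↔ _
  rw [Prod.mk.injEq]

/-- pairs, as elements of the product -/
def pr (A B : QStruct) (a : A.G) (b : B.G) : (prod A B).G := (a, b)

theorem pr_mul_pr (a a' : A.G) (b b' : B.G) : pr A B a b * pr A B a' b' = pr A B (a * a') (b * b') :=
  rfl

theorem pr_mul (a : A.G) (b : B.G) : pr A B a 1 * pr A B 1 b = pr A B a b := by
  rw [pr_mul_pr, mul_one, one_mul]

theorem pr_q (a a' : A.G) (b b' : B.G) :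
    (prod A B).q (pr A B a b) (pr A B a' b') = (A.q a a', B.q b b') := rfl

theorem gv_prod (hA : GroupValued A) (hB : GroupValued B) : GroupValued (prod A B) := by
  obtain ⟨M, hM, i, hi, hadd⟩ := hA
  obtain ⟨N, hN, j, hj, hadd'⟩ := hB
  refine ⟨M × N, inferInstance, fun p => (i p.1, j p.2), ?_, ?_⟩
  · rintro ⟨p1, p2⟩ ⟨r1, r2⟩ e
    have e1 : i p1 = i r1 := congrArg Prod.fst e
    have e2 : j p2 = j r2 := congrArg Prod.snd e
    rw [hi e1, hj e2]
  · intro u v w
    exact Prod.ext (hadd _ _ _) (hadd' _ _ _)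

theorem gv_left (h : GroupValued (prod A B)) : GroupValued A := by
  obtain ⟨M, hM, i, hi, hadd⟩ := h
  refine ⟨M, hM, fun β => i (β, B.zero), ?_, ?_⟩
  · intro β γ e
    exact congrArg Prod.fst (hi e)
  · intro a b c
    have := hadd (pr A B a 1) (pr A B b 1) (pr A B c 1)
    have e : ∀ x y : A.G, (prod A B).q (pr A B x 1) (pr A B y 1) = (A.q x y, B.zero) := fun x y =>
      Prod.ext rfl (B.q_one 1)
    rw [pr_mul_pr, mul_one, e, e, e] at this
    exact this

theorem gv_right (h : GroupValued (prod A B)) : GroupValued B := by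
  obtain ⟨M, hM, i, hi, hadd⟩ := h
  refine ⟨M, hM, fun β => i (A.zero, β), ?_, ?_⟩
  · intro β γ e
    exact congrArg Prod.snd (hi e)
  · intro a b c
    have := hadd (pr A B 1 a) (pr A B 1 b) (pr A B 1 c)
    have e : ∀ x y : B.G, (prod A B).q (pr A B 1 x) (pr A B 1 y) = (A.zero, B.q x y) := fun x y =>
      Prod.ext (A.q_one 1) rfl
    rw [pr_mul_pr, mul_one, e, e, e] at this
    exact this

/-- `SR` for `H × B` -/
theorem sharp_left {H : Subgroup A.G} (h : Sharp (prod A B) (H.prod ⊤)) : Sharp A H := by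
  obtain ⟨hi, ⟨x0, hx0⟩, hle⟩ := h
  have hP : ∀ x : (prod A B).G, x ∈ PSet (prod A B) (H.prod ⊤) → x.1 ∈ PSet A H := by
    intro x hx y hy
    exact (hx (y, 1) (prod_zero.2 ⟨hy, B.q_one _⟩)).1
  refine ⟨?_, ⟨x0.1, hP x0 hx0⟩, ?_⟩
  · rw [← hi]
    have e : H.prod (⊤ : Subgroup B.G) = H.comap (MonoidHom.fst A.G B.G) := by
      ext x
      exact ⟨fun h => h.1, fun h => ⟨h, trivial⟩⟩
    rw [e]
    exact (Subgroup.index_comap_of_surjective H (f := MonoidHom.fst A.G B.G)
      Prod.fst_surjective).symm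
  · intro x hx
    have h1 : ((x, 1) : A.G × B.G) ∈ H.prod (⊤ : Subgroup B.G) := ⟨hx, trivial⟩
    have h2 := hle h1
    have h3 : Subgroup.closure {z : (prod A B).G | ∃ x ∈ PSet (prod A B) (H.prod ⊤),
        ∃ y ∈ PSet (prod A B) (H.prod ⊤), x * y = z} ≤
        (Subgroup.closure {z | ∃ x ∈ PSet A H, ∃ y ∈ PSet A H, x * y = z}).comap
          (MonoidHom.fst A.G B.G) := by
      refine (Subgroup.closure_le _).2 ?_
      rintro _ ⟨a, ha, b, hb, rfl⟩
      exact Subgroup.subset_closure ⟨a.1, hP a ha, b.1, hP b hb, rfl⟩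
    exact h3 h2

theorem sharp_of_left {H : Subgroup A.G} (h : Sharp A H) : Sharp (prod A B) (H.prod ⊤) := by
  obtain ⟨hi, ⟨x0, hx0⟩, hle⟩ := h
  have hP : ∀ x : (prod A B).G, x.1 ∈ PSet A H → x ∈ PSet (prod A B) (H.prod ⊤) := by
    intro x hx y hy
    exact ⟨hx _ (prod_zero.1 hy).1, trivial⟩
  refine ⟨?_, ⟨(x0, 1), hP (x0, 1) hx0⟩, ?_⟩
  · rw [← hi]
    have e : H.prod (⊤ : Subgroup B.G) = H.comap (MonoidHom.fst A.G B.G) := by
      ext x
      exact ⟨fun h => h.1, fun h => ⟨h, trivial⟩⟩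
    rw [e]
    exact Subgroup.index_comap_of_surjective H (f := MonoidHom.fst A.G B.G) Prod.fst_surjective
  · rintro ⟨x, y⟩ ⟨hx, -⟩
    let C := Subgroup.closure {z : (prod A B).G | ∃ x ∈ PSet (prod A B) (H.prod ⊤),
        ∃ y ∈ PSet (prod A B) (H.prod ⊤), x * y = z}
    have h1 : pr A B x 1 ∈ C := by
      have h3 : Subgroup.closure {z | ∃ x ∈ PSet A H, ∃ y ∈ PSet A H, x * y = z} ≤
          C.comap (MonoidHom.inl A.G B.G) := by
        refine (Subgroup.closure_le _).2 ?_
        rintro _ ⟨a, ha, b, hb, rfl⟩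
        refine Subgroup.subset_closure ⟨(a, 1), hP (a, 1) ha, (b, 1), hP (b, 1) hb, ?_⟩
        exact Prod.ext rfl (mul_one 1)
      exact h3 (hle hx)
    have h2 : pr A B 1 y ∈ C := by
      refine Subgroup.subset_closure ⟨(x0, y), hP (x0, y) hx0, (x0, 1), hP (x0, 1) hx0, ?_⟩
      exact Prod.ext (A.exp_two x0) (mul_one y)
    have h3 := C.mul_mem h1 h2
    rw [pr_mul] at h3
    exact h3

theorem zset_left {H : Subgroup A.G} (hne : H ≠ ⊤) :
    Subgroup.closure (ZSet (prod A B) (H.prod ⊤)) = H.prod ⊤ ↔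
      Subgroup.closure (ZSet A H) = H := by
  constructor
  · intro h
    apply le_antisymm ZSet_le
    intro x hx
    have h1 : ((x, 1) : (prod A B).G) ∈ Subgroup.closure (ZSet (prod A B) (H.prod ⊤)) := by
      rw [h]
      exact ⟨hx, trivial⟩
    have h2 : Subgroup.closure (ZSet (prod A B) (H.prod ⊤)) ≤
        (Subgroup.closure (ZSet A H)).comap (MonoidHom.fst A.G B.G) := by
      refine (Subgroup.closure_le _).2 ?_
      rintro ⟨a, b⟩ ⟨h3, -, y, hy, hz⟩
      show a ∈ Subgroup.closure (ZSet A H)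
      by_cases ha : a = 1
      · rw [ha]
        exact Subgroup.one_mem _
      · refine Subgroup.subset_closure ⟨h3.1, ha, y.1, ?_, (prod_zero.1 hz).1⟩
        intro hy1
        exact hy ⟨hy1, trivial⟩
    exact h2 h1
  · intro h
    apply le_antisymm ZSet_le
    rintro ⟨x, y⟩ ⟨hx, -⟩
    let C := Subgroup.closure (ZSet (prod A B) (H.prod ⊤))
    have h1 : pr A B x 1 ∈ C := by
      have h3 : Subgroup.closure (ZSet A H) ≤ C.comap (MonoidHom.inl A.G B.G) := by
        refine (Subgroup.closure_le _).2 ?_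
        rintro a ⟨h3, h4, z, hz, haz⟩
        refine Subgroup.subset_closure ⟨⟨h3, trivial⟩, ?_, (z, 1), ?_, ?_⟩
        · intro e
          exact h4 (congrArg Prod.fst e)
        · intro hz1
          exact hz hz1.1
        · exact prod_zero.2 ⟨haz, B.q_one _⟩
      have h4 : x ∈ Subgroup.closure (ZSet A H) := by rw [h]; exact hx
      exact h3 h4
    have h2 : pr A B 1 y ∈ C := by
      by_cases hy : y = 1
      · rw [hy]
        exact C.one_mem
      obtain ⟨z, hz⟩ : ∃ z, z ∉ H := by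
        by_contra hc
        push Not at hc
        exact hne ((Subgroup.eq_top_iff' H).2 hc)
      refine Subgroup.subset_closure ⟨⟨H.one_mem, trivial⟩, ?_, (z, 1), ?_, ?_⟩
      · intro e
        exact hy (congrArg Prod.snd e)
      · intro hz1
        exact hz hz1.1
      · exact prod_zero.2 ⟨one_q _, B.q_one _⟩
    have h3 := C.mul_mem h1 h2
    rw [pr_mul] at h3
    exact h3

theorem sr_left (h : SR (prod A B)) : SR A := by
  intro H hH hc
  exact h _ (sharp_of_left hH) ((zset_left (ne_top_of_index hH.1)).2 hc)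

theorem iso_swap : Iso (prod A B) (prod B A) := by
  refine ⟨MulEquiv.prodComm, rfl, ?_⟩
  intro a b c d
  show (A.q a.1 b.1, B.q a.2 b.2) = (A.q c.1 d.1, B.q c.2 d.2) ↔
    (B.q a.2 b.2, A.q a.1 b.1) = (B.q c.2 d.2, A.q c.1 d.1)
  rw [Prod.mk.injEq, Prod.mk.injEq, and_comm]

theorem sr_right (h : SR (prod A B)) : SR B := sr_left (sr_iso iso_swap h)

/-- a sharp subgroup of a product comes from a factor -/
theorem sharp_cases (hA : A.neg = 1) (hB : B.neg = 1) {H : Subgroup (prod A B).G}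
    (h : Sharp (prod A B) H) :
    (∃ K : Subgroup A.G, H = K.prod ⊤) ∨ ∃ K : Subgroup B.G, H = (⊤ : Subgroup A.G).prod K := by
  obtain ⟨hi, ⟨x0, hx0⟩, hle⟩ := h
  let HA : Subgroup A.G := H.comap (MonoidHom.inl A.G B.G)
  let HB : Subgroup B.G := H.comap (MonoidHom.inr A.G B.G)
  have hHA : ∀ a, a ∈ HA ↔ pr A B a 1 ∈ H := fun a => Iff.rfl
  have hHB : ∀ b, b ∈ HB ↔ pr A B 1 b ∈ H := fun b => Iff.rfl
  by_cases h1 : HB = ⊤
  · left
    refine ⟨HA, ?_⟩
    ext ⟨a, b⟩
    have hb : pr A B 1 b ∈ H := by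
      rw [← hHB, h1]
      trivial
    have e : pr A B a b ∈ H ↔ a ∈ HA := by
      rw [← pr_mul, H.mul_mem_cancel_right hb, hHA]
    exact ⟨fun h => ⟨e.1 h, trivial⟩, fun h => e.2 h.1⟩
  by_cases h2 : HA = ⊤
  · right
    refine ⟨HB, ?_⟩
    ext ⟨a, b⟩
    have ha : pr A B a 1 ∈ H := by
      rw [← hHA, h2]
      trivial
    have e : pr A B a b ∈ H ↔ b ∈ HB := by
      rw [← pr_mul, H.mul_mem_cancel_left ha, hHB]
    exact ⟨fun h => ⟨trivial, e.1 h⟩, fun h => e.2 h.2⟩
  exfalso
  obtain ⟨a, ha⟩ : ∃ a, a ∉ HA := by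
    by_contra hc
    push Not at hc
    exact h2 ((Subgroup.eq_top_iff' HA).2 hc)
  obtain ⟨b, hb⟩ : ∃ b, b ∉ HB := by
    by_contra hc
    push Not at hc
    exact h1 ((Subgroup.eq_top_iff' HB).2 hc)
  have h3 : pr A B a b ∈ H := by
    rw [← pr_mul, Subgroup.mul_mem_iff_of_index_two hi]
    exact ⟨fun h => absurd h ha, fun h => absurd h hb⟩
  have h4 : H ≤ HA.prod HB := by
    refine hle.trans ((Subgroup.closure_le _).2 ?_)
    have key : ∀ x ∈ PSet (prod A B) H, x.1 ∈ HA ∧ x.2 ∈ HB := by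
      intro x hx
      constructor
      · exact hx (x.1, 1) (prod_zero.2 ⟨q_self hA _, B.q_one _⟩)
      · exact hx (1, x.2) (prod_zero.2 ⟨A.q_one _, q_self hB _⟩)
    rintro _ ⟨x, hx, y, hy, rfl⟩
    exact ⟨HA.mul_mem (key x hx).1 (key y hy).1, HB.mul_mem (key x hx).2 (key y hy).2⟩
  exact ha (h4 h3).1

/-- half of the product case -/
theorem sr_half (h1 : SR A) {K : Subgroup A.G} (hH : Sharp (prod A B) (K.prod ⊤)) :
    Subgroup.closure (ZSet (prod A B) (K.prod ⊤)) ≠ K.prod ⊤ := by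
  intro hc
  have h3 := sharp_left hH
  exact h1 K h3 ((zset_left (ne_top_of_index h3.1)).1 hc)

theorem sr_prod (hA : A.neg = 1) (hB : B.neg = 1) (h1 : SR A) (h2 : SR B) : SR (prod A B) := by
  intro H hH hc
  rcases sharp_cases hA hB hH with ⟨K, rfl⟩ | ⟨K, rfl⟩
  · exact sr_half h1 hH hc
  · have h3 := bad_comap (S := prod B A) (T := prod A B) (φ := MulEquiv.prodComm) (by
      intro a b c d
      show (B.q a.1 b.1, A.q a.2 b.2) = (B.q c.1 d.1, A.q c.2 d.2) ↔
        (A.q a.2 b.2, B.q a.1 b.1) = (A.q c.2 d.2, B.q c.1 d.1)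
      rw [Prod.mk.injEq, Prod.mk.injEq, and_comm]) hH hc (K := K.prod ⊤)
      (fun x => ⟨fun h => ⟨trivial, h.1⟩, fun h => ⟨h.2, trivial⟩⟩)
    exact sr_half h2 h3.1 h3.2

end prod

/-- **the converse** -/
theorem LocExt.conv {S : QStruct} (h : LocExt S) :
    Finite S.G ∧ S.neg = 1 ∧ GroupValued S ∧ SR S := by
  induction h with
  | loc S hf hneg h => exact ⟨hf, hneg, gv_loc hf h, sr_loc hf hneg h⟩
  | ext S hf hneg h =>
    have : Finite S.G := hf
    refine ⟨(inferInstance : Finite (S.G × Multiplicative (ZMod 2))), ?_, gv_ext h, sr_ext hneg⟩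
    show (S.neg, (1 : Multiplicative (ZMod 2))) = 1
    rw [hneg]
    rfl
  | prod S T h1 h2 ih1 ih2 =>
    obtain ⟨a1, a2, a3, a4⟩ := ih1
    obtain ⟨b1, b2, b3, b4⟩ := ih2
    have : Finite S.G := a1
    have : Finite T.G := b1
    refine ⟨(inferInstance : Finite (S.G × T.G)), ?_, gv_prod a3 b3, sr_prod a2 b2 a4 b4⟩
    show (S.neg, T.neg) = 1
    rw [a2, b2]
    rfl
  | iso S T h1 h2 ih =>
    obtain ⟨a1, a2, a3, a4⟩ := ih
    refine ⟨?_, neg_iso h1 a2, gv_iso h1 a3, sr_iso h1 a4⟩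
    obtain ⟨φ, -, -⟩ := h1
    have : Finite S.G := a1
    exact Finite.of_equiv S.G φ.toEquiv

/-- structures of elementary type with `-1 = 1` are in the class -/
theorem locExt_of_elem {S : QStruct} (h : ElemType S) : S.neg = 1 → LocExt S := by
  induction h with
  | L0 S h =>
    intro hneg
    have hs : Subsingleton S.G := (Nat.card_eq_one_iff_unique.1 h).1
    have hf : Finite S.G := Finite.of_subsingleton
    refine LocExt.loc S hf hneg ?_
    have : Subsingleton S.Q := ⟨fun β γ => by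
      obtain ⟨a, b, rfl⟩ := S.surj β
      obtain ⟨c, d, rfl⟩ := S.surj γ
      rw [Subsingleton.elim a c, Subsingleton.elim b d]⟩
    have := Finite.card_le_one_iff_subsingleton.2 this
    omega
  | L10 S h h1 h2 =>
    intro hneg
    have hf : Finite S.G := Nat.finite_of_card_ne_zero (by omega)
    refine LocExt.loc S hf hneg ?_
    have : Subsingleton S.Q := ⟨fun β γ => by
      obtain ⟨a, b, rfl⟩ := S.surj β
      obtain ⟨c, d, rfl⟩ := S.surj γ
      rw [h2, h2]⟩
    have := Finite.card_le_one_iff_subsingleton.2 this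
    omega
  | L11 S h h1 h2 =>
    intro hneg
    exact absurd hneg h1
  | L1 S h h1 h2 =>
    intro hneg
    exact absurd hneg h1
  | loc S hf h h1 h2 =>
    intro hneg
    exact LocExt.loc S hf hneg h2.le
  | prod S T h1 h2 ih1 ih2 =>
    intro hneg
    have e : (S.neg, T.neg) = ((1 : S.G), (1 : T.G)) := hneg
    exact LocExt.prod S T (ih1 (congrArg Prod.fst e)) (ih2 (congrArg Prod.snd e))
  | ext S h ih =>
    intro hneg
    have e : (S.neg, (1 : Multiplicative (ZMod 2))) = ((1 : S.G), (1 : Multiplicative (ZMod 2))) :=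
      hneg
    obtain ⟨a1, a2, a3, a4⟩ := (ih (congrArg Prod.fst e)).conv
    exact LocExt.ext S a1 a2 a3
  | iso S T h1 h2 ih =>
    intro hneg
    exact LocExt.iso S T h1 (ih (neg_iso (Iso.symm h1) hneg))

end Pool.Agent.ETCO
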