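import Pool.Agent.ETCO.Fwd
import Pool.Agent.REG10.SAll
import Pool.Agent.REG10.ER
import Pool.Agent.REG10.FN.RTC

/-!
# Corollaries of Theorem X': elementary type
-/

set_option autoImplicit false
set_option linter.unusedSectionVars false
set_option linter.unusedVariables false

namespace Pool.Agent.ETCO

open QS Pool.Agent.H34B

/-- structures of the class have a regular element -/
theorem LocExt.regE {S : QStruct} (h : LocExt S) : ∃ x, REG10.RegE S x := by
  induction h with
  | loc S hf hneg h =>
    by_cases h2 : Nat.card S.Q = 2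
    · exact REG10.regE_two h2
    · have hfQ := finQ hf
      have h1 : Nat.card S.Q ≤ 1 := by omega
      have hs : Subsingleton S.Q := Finite.card_le_one_iff_subsingleton.1 h1
      exact ⟨1, REG10.regE_zero fun a b => Subsingleton.elim _ _⟩
  | ext S hf hneg h => exact ⟨_, REG10.regE_ext S hneg⟩
  | prod S T _ _ h1 h2 =>
    obtain ⟨x, hx⟩ := h1
    obtain ⟨y, hy⟩ := h2
    exact ⟨_, REG10.regE_prod hx hy⟩
  | iso S T hi _ h =>
    obtain ⟨x, hx⟩ := h
    exact REG10.regE_iso hi hx

theorem gv_sub {S : QStruct} (hneg : S.neg = 1) (hg : GroupValued S) {U : Subgroup S.G}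
    (h4 : REG10.Lsub S U) : GroupValued (ESL.PRODRECX.sub S hneg U h4) := by
  obtain ⟨B, hB, i, hi, hadd⟩ := hg
  refine ⟨B, hB, fun β => i β.1, ?_, ?_⟩
  · intro β γ e
    exact Subtype.ext (hi e)
  · intro a b c
    exact hadd _ _ _

/-- **elementary type and retracts** -/
theorem cor2 (S : QStruct) (hf : Finite S.G) (hneg : S.neg = 1) (hg : GroupValued S) :
    ElemType S ↔ ∀ (U : Subgroup S.G) (h : REG10.Retr S U),
      SR (ESL.PRODRECX.sub S hneg U h.lsub) := by
  constructor
  · intro hS U hU
    have h1 := (REG10.elem_iff_hregR S hf hneg).1 hS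
    have h2 := h1.sub hneg hU.lsub hU
    have h3 : Finite (ESL.PRODRECX.sub S hneg U hU.lsub).G := (inferInstance : Finite U)
    have h4 := (REG10.elem_iff_hregR _ h3 rfl).2 h2
    exact (locExt_of_elem h4 rfl).conv.2.2.2
  · intro h
    rw [REG10.elem_iff_hregR S hf hneg]
    intro U hU
    have h3 : Finite (ESL.PRODRECX.sub S hneg U hU.lsub).G := (inferInstance : Finite U)
    have h4 := locExt_of_sr _ _ rfl h3 rfl (gv_sub hneg hg hU.lsub) (h U hU)
    obtain ⟨x, hx⟩ := h4.regE
    let x' : U := x
    refine ⟨x'.1, x'.2, ?_⟩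
    intro w hw hxw v hv
    obtain ⟨z, hz⟩ := hx (⟨w, hw⟩ : U) (⟨v, hv⟩ : U) (Subtype.ext hxw)
    let z' : U := z
    exact ⟨z'.1, z'.2, congrArg Subtype.val hz⟩

/-- **the conjecture for group valued structures** -/
theorem cor3 : (∀ S : QStruct, Finite S.G → S.neg = 1 → GroupValued S → ElemType S) ↔
    ∀ S : QStruct, Finite S.G → S.neg = 1 → GroupValued S → SR S := by
  constructor
  · intro h S hf hneg hg
    exact (locExt_of_elem (h S hf hneg hg) hneg).conv.2.2.2
  · intro h S hf hneg hg
    rw [cor2 S hf hneg hg]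
    intro U hU
    have h3 : Finite (ESL.PRODRECX.sub S hneg U hU.lsub).G := (inferInstance : Finite U)
    exact h _ h3 rfl (gv_sub hneg hg hU.lsub)

end Pool.Agent.ETCO
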