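import Pool.Agent.H34B.Grp

/-!
# Statement of Theorem X' (helper61, helper11, helper72)

Direct products of local types and of group extensions.
-/

set_option autoImplicit false
set_option linter.unusedSectionVars false

namespace Pool.Agent.ETCO

open QS Pool.Agent.H34B

/-- direct products of structures with at most two quaternions and of group extensions of arbitrary
finite group valued structures (`-1 = 1`) -/
inductive LocExt : QStruct → Prop
  | loc (S : QStruct) (hf : Finite S.G) (hneg : S.neg = 1) (h : Nat.card S.Q ≤ 2) : LocExt S
  | ext (S : QStruct) (hf : Finite S.G) (hneg : S.neg = 1) (h : GroupValued S) : LocExt (ext S)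
  | prod (S T : QStruct) (h1 : LocExt S) (h2 : LocExt T) : LocExt (prod S T)
  | iso (S T : QStruct) (h1 : Iso S T) (h2 : LocExt S) : LocExt T

/-- the elements `x ≠ 1` of `H` which commute with some `y` outside `H` -/
def ZSet (S : QStruct) (H : Subgroup S.G) : Set S.G :=
  {x | x ∈ H ∧ x ≠ 1 ∧ ∃ y, y ∉ H ∧ S.q x y = S.zero}

/-- no sharp subgroup is generated by its `ZSet` -/
def SR (S : QStruct) : Prop := ∀ H : Subgroup S.G, Sharp S H → Subgroup.closure (ZSet S H) ≠ H

end Pool.Agent.ETCO
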