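import Pool.Agent.ETCO.Conv
import Pool.Agent.H61X.Split
import Pool.Agent.H34B.Grp3
import Pool.Agent.ETCR.Fin
import Pool.Agent.ESL.ISOC
import Pool.Agent.ESL.PRODREC

/-!
# Theorem X', the main direction
-/

set_option autoImplicit false
set_option linter.unusedSectionVars false
set_option linter.unusedVariables false

namespace Pool.Agent.ETCO

open QS Pool.Agent.ESL Pool.Agent.H34B
open scoped BigOperators

/-! ### splitting off one block -/

section split

variable {V : Type} [AddCommGroup V] [Module (ZMod 2) V] [Finite V] {R : FS V}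

theorem split_one (hA : IsAlt R) (hL : Linked R) (hU : Univ R) (hD : H61X.DomB R)
    {E0 : Submodule (ZMod 2) (ESL.D V)} (hE0 : H61X.Blk R E0) :
    ∃ F : Submodule (ZMod 2) (ESL.D V), IsCompl E0 F ∧ ∀ ρ ∈ R, ∃ ρ1 ∈ R, ∃ ρ2 ∈ R,
      (∀ x, ρ1 x ∈ E0) ∧ (∀ x, ρ2 x ∈ F) ∧ ρ = ρ1 + ρ2 := by
  classical
  have : Finite (Submodule (ZMod 2) (ESL.D V)) :=
    Finite.of_injective (fun E : Submodule (ZMod 2) (ESL.D V) => (E : Set (ESL.D V)))
      SetLike.coe_injective
  have : Fintype (Submodule (ZMod 2) (ESL.D V)) := Fintype.ofFinite _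
  let T0 : Finset (Submodule (ZMod 2) (ESL.D V)) :=
    Finset.univ.filter (fun E => H61X.Blk R E ∧ E ≠ E0)
  have hT0 : ∀ E, E ∈ T0 ↔ H61X.Blk R E ∧ E ≠ E0 := by
    intro E
    simp [T0]
  let B' : Submodule (ZMod 2) (ESL.D V) := ⨆ E ∈ T0, E
  have hle : ∀ E ∈ T0, E ≤ B' := fun E hE => le_iSup₂_of_le E hE le_rfl
  have hdis : Disjoint E0 B' := by
    rw [Submodule.disjoint_def]
    intro x hx hxB
    obtain ⟨μ, hμ⟩ := (Submodule.mem_iSup_finset_iff_exists_sum (s := T0) (fun E => E) x).1 hxB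
    have hE0T : E0 ∉ T0 := fun h => ((hT0 E0).1 h).2 rfl
    have h1 := H61X.ind hA hL hU hD (insert E0 T0) (by
      intro E hE
      rcases Finset.mem_insert.1 hE with rfl | h
      · exact hE0
      · exact ((hT0 E).1 h).1) (fun E => if E = E0 then x else (μ E : ESL.D V)) (by
      intro E hE
      show (if E = E0 then x else (μ E : ESL.D V)) ∈ E
      by_cases h : E = E0
      · rw [if_pos h, h]
        exact hx
      · rw [if_neg h]
        exact (μ E).2) (by
      rw [Finset.sum_insert hE0T, if_pos rfl]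
      have e : ∑ E ∈ T0, (if E = E0 then x else (μ E : ESL.D V)) = ∑ E ∈ T0, (μ E : ESL.D V) := by
        apply Finset.sum_congr rfl
        intro E hE
        exact if_neg ((hT0 E).1 hE).2
      rw [e, hμ]
      exact ZModModule.add_self _)
    have h2 := h1 E0 (Finset.mem_insert_self _ _)
    rw [if_pos rfl] at h2
    exact h2
  obtain ⟨C, hC⟩ := Submodule.exists_isCompl (E0 ⊔ B')
  refine ⟨B' ⊔ C, ⟨hdis.disjoint_sup_right_of_disjoint_sup_left hC.disjoint, ?_⟩, ?_⟩
  · rw [codisjoint_iff, ← sup_assoc]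
    exact hC.sup_eq_top
  · intro ρ hρ
    obtain ⟨T, f, h1, h2, h3⟩ := H61X.split hA hU hD ρ hρ
    have hB : ∀ x, (∑ E ∈ T.erase E0, f E) x ∈ B' ⊔ C := by
      intro x
      rw [LinearMap.sum_apply]
      refine Submodule.sum_mem _ fun E hE => ?_
      have hET := Finset.mem_of_mem_erase hE
      have : E ∈ T0 := (hT0 E).2 ⟨h1 E hET, Finset.ne_of_mem_erase hE⟩
      exact Submodule.mem_sup_left (hle E this ((h2 E hET).2 x))
    have hR : ∑ E ∈ T.erase E0, f E ∈ R :=
      Submodule.sum_mem _ fun E hE => (h2 E (Finset.mem_of_mem_erase hE)).1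
    by_cases hET : E0 ∈ T
    · refine ⟨f E0, (h2 E0 hET).1, _, hR, (h2 E0 hET).2, hB, ?_⟩
      rw [h3]
      exact (Finset.add_sum_erase T f hET).symm
    · refine ⟨0, R.zero_mem, _, hR, fun x => E0.zero_mem, hB, ?_⟩
      rw [h3, zero_add, Finset.erase_eq_of_notMem hET]

end split

/-! ### the structure and its forms -/

attribute [local instance] J1X.mdl

variable {S : QStruct}

theorem comm_iff (hneg : S.neg = 1) (hg : GroupValued S) {a b : Additive S.G} :
    S.q a.toMul b.toMul = S.zero ↔ ∀ k ∈ J1X.RR S, k a b = 0 := by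
  constructor
  · intro h k hk
    exact hk a b h
  · intro h
    have h1 := emb_of_gv S hneg hg a b a 0 (by
      intro ρ hρ
      rw [h ρ hρ, map_zero])
    have h2 : S.q a.toMul b.toMul = S.q a.toMul 1 := h1
    rw [h2, S.q_one]

theorem univ_RR : Univ (J1X.RR S) := by
  intro k _ h a b hab
  exact h a b fun l hl => hl a b hab

theorem refl_RR (hneg : S.neg = 1) [Finite S.G] : Refl (J1X.RR S) := by
  have hf : Finite (Additive S.G) := (inferInstance : Finite S.G)
  exact H61X.refl_of (J1X.isAlt S hneg) univ_RR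

/-- the condition `SR` in terms of forms -/
theorem srf_of_sr [Finite S.G] (hneg : S.neg = 1) (hg : GroupValued S) (hS : SR S) :
    SRF (J1X.RR S) := by
  have hf : Finite (Additive S.G) := (inferInstance : Finite S.G)
  intro l hl hx hcl
  obtain ⟨x, hx⟩ := hx
  have hP : ETSC.PP (dt S) l x := pp_of_Lx S hx
  -- the kernel of `l` is sharp
  have hsh : Sharp S (kerG S l) := by
    refine ⟨index_kerG S hl, ⟨x.toMul, hP⟩, ?_⟩
    by_contra hn
    obtain ⟨h, hh, hhn⟩ := SetLike.not_le_iff_exists.1 hn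
    let K := Subgroup.closure {z | ∃ x ∈ PSet S (kerG S l), ∃ y ∈ PSet S (kerG S l), x * y = z}
    obtain ⟨μ, hμ, hμ1⟩ := exists_sep (W := toSub S K) (x := Additive.ofMul h) hhn
    have hc : μ ∈ ETSC.Ec (dt S) l := by
      apply ETSC.const_mem (S := dt S) (dt_e S hneg)
      intro a b ha hb
      apply hμ (a + b)
      have h3 : a.toMul * b.toMul ∈ K := Subgroup.subset_closure ⟨a.toMul, ha, b.toMul, hb, rfl⟩
      exact h3
    rcases hcl μ (fun r hr hlr => hc r hr hlr) with rfl | rfl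
    · exact zero_ne_one hμ1
    · rw [mem_kerG, hμ1] at hh
      exact one_ne_zero hh
  have hne := hS _ hsh
  obtain ⟨h, hh, hhn⟩ : ∃ h ∈ kerG S l, h ∉ Subgroup.closure (ZSet S (kerG S l)) := by
    by_contra hc
    push Not at hc
    exact hne (le_antisymm ZSet_le hc)
  let K := Subgroup.closure (ZSet S (kerG S l))
  obtain ⟨th, ht, ht1⟩ := exists_sep (W := toSub S K) (x := Additive.ofMul h) hhn
  refine ⟨th, ?_, ?_, ?_⟩
  · rintro rfl
    exact zero_ne_one ht1
  · rintro rfl
    rw [mem_kerG, ht1] at hh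
    exact one_ne_zero hh
  · have h1 : ∀ x v, v ∈ co (Lx (J1X.RR S) x) → l x = 0 → l v = 1 → th x = 0 := by
      intro x v hv h0 h1
      by_cases hx0 : x = 0
      · rw [hx0, map_zero]
      · apply ht x
        have h2 : x.toMul ∈ K := by
          refine Subgroup.subset_closure ⟨h0, hx0, v.toMul, ?_, ?_⟩
          · rw [mem_kerG]
            intro h3
            have h4 : l v = 0 := h3
            rw [h1] at h4
            exact one_ne_zero h4
          · exact (comm_iff hneg hg).2 fun k hk => hv _ ⟨k, hk, rfl⟩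
        exact h2
    rw [wd_mem_iff (J1X.isAlt S hneg) (refl_RR hneg)]
    refine ⟨h1, fun x v hv a b => ?_⟩
    have hv' : v ∈ co (Lx (J1X.RR S) (x + v)) := by
      rintro _ ⟨k, hk, rfl⟩
      rw [map_add, LinearMap.add_apply, hv _ ⟨k, hk, rfl⟩, J1X.isAlt S hneg k hk, add_zero]
    have h3 := h1 (x + v) v hv' (by rw [map_add, a, b]; decide) b
    rw [map_add] at h3
    exact ETSC.z2add h3

/-- a single block of local type -/
theorem loc_case [Finite S.G] (hneg : S.neg = 1) (hg : GroupValued S)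
    {w : ESL.Fm (Additive S.G)} (hw : PAtom (J1X.RR S) w) (ht : LinearMap.range w = ⊤) :
    LocExt S := by
  have hf : Finite (Additive S.G) := (inferInstance : Finite S.G)
  have hval : ∀ r ∈ J1X.RR S, ∀ x, r x = 0 ∨ r x = w x := by
    intro r hr x
    by_cases h : r x = 0
    · exact Or.inl h
    · right
      exact (hw.2.2 x (r x) (by rw [ht]; trivial) h ⟨r, hr, rfl⟩).symm
  have hval2 : ∀ r ∈ J1X.RR S, r = 0 ∨ r = w := by
    intro r hr
    by_contra hc
    push Not at hc
    obtain ⟨x, hx⟩ := exists_val hc.1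
    obtain ⟨y, hy⟩ : ∃ y, r y ≠ w y := by
      by_contra hn
      push Not at hn
      exact hc.2 (LinearMap.ext hn)
    have h1 := (hval r hr x).resolve_left hx
    have h2 := (hval r hr y).resolve_right hy
    rcases hval r hr (x + y) with h3 | h3
    · rw [map_add, h2, add_zero] at h3
      exact hx h3
    · rw [map_add, map_add, h1, h2, add_zero] at h3
      have h4 : w y = 0 := by
        have := congrArg (fun t => w x + t) h3
        simpa [ESL.add_self', ESL.add_add_self] using this.symm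
      exact hy (h2.trans h4.symm)
  have heq : ∀ a b c d : S.G, S.q a b ≠ S.zero → S.q c d ≠ S.zero → S.q a b = S.q c d := by
    intro a b c d h1 h2
    have hone : ∀ a b : S.G, S.q a b ≠ S.zero → w (Additive.ofMul a) (Additive.ofMul b) = 1 := by
      intro a b h
      have h3 : ¬ ∀ k ∈ J1X.RR S, k (Additive.ofMul a) (Additive.ofMul b) = 0 :=
        fun hc => h ((comm_iff hneg hg (a := Additive.ofMul a) (b := Additive.ofMul b)).2 hc)
      push Not at h3
      obtain ⟨k, hk, hk0⟩ := h3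
      rcases hval2 k hk with rfl | rfl
      · exact absurd rfl hk0
      · exact zm_ne hk0
    apply emb_of_gv S hneg hg (Additive.ofMul a) (Additive.ofMul b) (Additive.ofMul c)
      (Additive.ofMul d)
    intro ρ hρ
    rcases hval2 ρ hρ with rfl | rfl
    · rfl
    · rw [hone a b h1, hone c d h2]
  refine LocExt.loc S inferInstance hneg ?_
  classical
  have h1 : Nat.card S.Q ≤ Nat.card Bool := by
    refine Nat.card_le_card_of_injective (fun β => decide (β = S.zero)) ?_
    intro β γ e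
    by_cases h1 : β = S.zero <;> by_cases h2 : γ = S.zero
    · rw [h1, h2]
    · simp [h1, h2] at e
    · simp [h1, h2] at e
    · obtain ⟨a, b, rfl⟩ := S.surj β
      obtain ⟨c, d, rfl⟩ := S.surj γ
      exact heq a b c d h1 h2
  have e : Nat.card Bool = 2 := by rw [Nat.card_eq_fintype_card, Fintype.card_bool]
  rwa [e] at h1

/-- a single block of extension type -/
theorem ext_case [Finite S.G] (hneg : S.neg = 1) (hg : GroupValued S)
    {η : ESL.D (Additive S.G)} (hη : η ≠ 0) (h : ∀ μ, wdL η μ ∈ J1X.RR S) : LocExt S := by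
  have hf : Finite (Additive S.G) := (inferInstance : Finite S.G)
  obtain ⟨t, ht⟩ : ∃ t, η t = 1 := by
    by_contra hc
    push Not at hc
    exact hη (LinearMap.ext fun x => zm_ne' (hc x))
  have hrig : ∀ x, S.q t.toMul x = S.zero → x = 1 ∨ x = t.toMul := by
    intro x hx
    have h1 : ∀ μ : ESL.D (Additive S.G), μ (Additive.ofMul x) = μ (η (Additive.ofMul x) • t) := by
      intro μ
      have h2 : wdL η μ t (Additive.ofMul x) = 0 := h μ t (Additive.ofMul x) hx
      rw [wdL_apply₂, ht, one_mul] at h2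
      rw [map_smul, smul_eq_mul, mul_comm]
      exact ETSC.z2add h2
    have h3 : Additive.ofMul x = η (Additive.ofMul x) • t := by
      by_contra hne
      have h4 : Additive.ofMul x + η (Additive.ofMul x) • t ≠ 0 := fun e => hne (eq_of_add e)
      obtain ⟨f, hf⟩ := exists_dual h4
      rw [map_add, h1 f] at hf
      have : f (η (Additive.ofMul x) • t) + f (η (Additive.ofMul x) • t) = 0 :=
        CharTwo.add_self_eq_zero _
      rw [this] at hf
      exact zero_ne_one hf
    rcases zm (η (Additive.ofMul x)) with e | e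
    · rw [e, zero_smul] at h3
      left
      exact h3
    · rw [e, one_smul] at h3
      right
      exact congrArg Additive.toMul h3
  have ht1 : t.toMul ≠ 1 := by
    intro e
    have : t = 0 := e
    rw [this, map_zero] at ht
    exact zero_ne_one ht
  obtain ⟨T, hT⟩ := ETCR.ext_of_rigid S hneg ht1 hrig
  have hT' := Iso.symm hT
  have hnegT : (ext T).neg = 1 := neg_iso hT hneg
  have e : (T.neg, (1 : Multiplicative (ZMod 2))) = ((1 : T.G), (1 : Multiplicative (ZMod 2))) :=
    hnegT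
  have hfT : Finite (T.G × Multiplicative (ZMod 2)) := by
    obtain ⟨φ, -, -⟩ := hT
    exact Finite.of_equiv S.G φ.toEquiv
  have hfT' : Finite T.G := Finite.of_injective (fun a : T.G => (a, (1 : Multiplicative (ZMod 2))))
    (fun a b h => congrArg Prod.fst h)
  exact LocExt.iso (ext T) S hT' (LocExt.ext T hfT' (congrArg Prod.fst e) (gv_of_ext (gv_iso hT hg)))

/-- a proper splitting of the form space is a product decomposition -/
theorem prod_case [Finite S.G] (hneg : S.neg = 1) (hg : GroupValued S)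
    {E F : Submodule (ZMod 2) (ESL.D (Additive S.G))} (hEF : IsCompl E F) (hE : E ≠ ⊤) (hF : F ≠ ⊤)
    (h : ∀ ρ ∈ J1X.RR S, ∃ ρ1 ∈ J1X.RR S, ∃ ρ2 ∈ J1X.RR S,
      (∀ x, ρ1 x ∈ E) ∧ (∀ x, ρ2 x ∈ F) ∧ ρ = ρ1 + ρ2) :
    ∃ A B : QStruct, A.neg = 1 ∧ B.neg = 1 ∧ Nat.card A.G < Nat.card S.G ∧
      Nat.card B.G < Nat.card S.G ∧ Iso (prod A B) S := by
  classical
  have hf : Finite (Additive S.G) := (inferInstance : Finite S.G)
  have hA := J1X.isAlt S hneg
  obtain ⟨HA, hHA⟩ := ETCP.zspan S (co F)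
  obtain ⟨HB, hHB⟩ := ETCP.zspan S (co E)
  have h1 : co F ⊓ co E = ⊥ := by
    rw [← co_sup, sup_comm, hEF.sup_eq_top, co_top]
  have h2 : co F ⊔ co E = ⊤ := co_sup_top hEF.disjoint.symm
  have hc : IsCompl HA HB := by
    constructor
    · rw [Subgroup.disjoint_def]
      intro x hx hx'
      have h3 : Additive.ofMul x ∈ co F ⊓ co E := ⟨(hHA x).1 hx, (hHB x).1 hx'⟩
      rw [h1] at h3
      exact h3
    · rw [codisjoint_iff, Subgroup.eq_top_iff']
      intro x
      have h3 : Additive.ofMul x ∈ co F ⊔ co E := by rw [h2]; trivial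
      obtain ⟨a, ha, b, hb, e⟩ := Submodule.mem_sup.1 h3
      have h4 : x = a.toMul * b.toMul := (congrArg Additive.toMul e).symm
      rw [h4]
      exact Subgroup.mul_mem_sup ((hHA a.toMul).2 ha) ((hHB b.toMul).2 hb)
  have hk1 : ∀ ρ1 ∈ J1X.RR S, (∀ x, ρ1 x ∈ E) → ∀ b ∈ co E, ρ1 b = 0 := by
    intro ρ1 hρ1 hE b hb
    apply LinearMap.ext
    intro x
    rw [hA.symm hρ1]
    exact hb _ (hE x)
  have hk2 : ∀ ρ2 ∈ J1X.RR S, (∀ x, ρ2 x ∈ F) → ∀ a ∈ co F, ρ2 a = 0 := by
    intro ρ2 hρ2 hF a ha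
    apply LinearMap.ext
    intro x
    rw [hA.symm hρ2]
    exact ha _ (hF x)
  have hq : ∀ a ∈ HA, ∀ b ∈ HB, ∀ a' ∈ HA, ∀ b' ∈ HB, S.q (a * b) (a' * b') = S.zero ↔
      S.q a a' = S.zero ∧ S.q b b' = S.zero := by
    intro a ha b hb a' ha' b' hb'
    have ka := (hHA a).1 ha
    have kb := (hHB b).1 hb
    have ka' := (hHA a').1 ha'
    have kb' := (hHB b').1 hb'
    have e1 : ∀ x y : S.G, S.q x y = S.zero ↔
        ∀ k ∈ J1X.RR S, k (Additive.ofMul x) (Additive.ofMul y) = 0 := fun x y =>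
      comm_iff hneg hg (a := Additive.ofMul x) (b := Additive.ofMul y)
    rw [e1, e1, e1]
    have ev1 : ∀ ρ1 ∈ J1X.RR S, (∀ x, ρ1 x ∈ E) →
        ρ1 (Additive.ofMul (a * b)) (Additive.ofMul (a' * b')) =
          ρ1 (Additive.ofMul a) (Additive.ofMul a') := by
      intro ρ1 hρ1 hE1
      rw [ofMul_mul, ofMul_mul, map_add ρ1, hk1 ρ1 hρ1 hE1 _ kb, add_zero,
        map_add (ρ1 (Additive.ofMul a)), hA.symm hρ1 (Additive.ofMul a) (Additive.ofMul b'), hk1 ρ1 hρ1 hE1 _ kb',
        LinearMap.zero_apply, add_zero]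
    have ev2 : ∀ ρ2 ∈ J1X.RR S, (∀ x, ρ2 x ∈ F) →
        ρ2 (Additive.ofMul (a * b)) (Additive.ofMul (a' * b')) =
          ρ2 (Additive.ofMul b) (Additive.ofMul b') := by
      intro ρ2 hρ2 hF2
      rw [ofMul_mul, ofMul_mul, map_add ρ2, hk2 ρ2 hρ2 hF2 _ ka, zero_add,
        map_add (ρ2 (Additive.ofMul b)), hA.symm hρ2 (Additive.ofMul b) (Additive.ofMul a'), hk2 ρ2 hρ2 hF2 _ ka',
        LinearMap.zero_apply, zero_add]
    constructor
    · intro hall
      constructor
      · intro ρ hρ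
        obtain ⟨ρ1, m1, ρ2, m2, g1, g2, rfl⟩ := h ρ hρ
        rw [LinearMap.add_apply, LinearMap.add_apply, hk2 ρ2 m2 g2 _ ka, LinearMap.zero_apply,
          add_zero, ← ev1 ρ1 m1 g1]
        exact hall ρ1 m1
      · intro ρ hρ
        obtain ⟨ρ1, m1, ρ2, m2, g1, g2, rfl⟩ := h ρ hρ
        rw [LinearMap.add_apply, LinearMap.add_apply, hk1 ρ1 m1 g1 _ kb, LinearMap.zero_apply,
          zero_add, ← ev2 ρ2 m2 g2]
        exact hall ρ2 m2
    · rintro ⟨hl, hr⟩ ρ hρ
      obtain ⟨ρ1, m1, ρ2, m2, g1, g2, rfl⟩ := h ρ hρ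
      rw [LinearMap.add_apply, LinearMap.add_apply, ev1 ρ1 m1 g1, ev2 ρ2 m2 g2, hl ρ1 m1,
        hr ρ2 m2, add_zero]
  obtain ⟨SA, SB, f, g, n1, n2, -, -, hiso⟩ := prodrec_proof isoc_proof S hneg HA HB hc hq
  have hBne : ∃ b ∈ HB, b ≠ 1 := by
    by_contra hcon
    push Not at hcon
    apply hE
    have : co E = ⊥ := by
      rw [eq_bot_iff]
      intro b hb
      have := hcon b.toMul ((hHB b.toMul).2 hb)
      exact this
    rw [← an_co E, this, an_bot]
  have hAne : ∃ a ∈ HA, a ≠ 1 := by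
    by_contra hcon
    push Not at hcon
    apply hF
    have : co F = ⊥ := by
      rw [eq_bot_iff]
      intro b hb
      have := hcon b.toMul ((hHA b.toMul).2 hb)
      exact this
    rw [← an_co F, this, an_bot]
  have hlt : ∀ {K L : Subgroup S.G}, IsCompl K L → (∃ b ∈ L, b ≠ 1) → Nat.card K < Nat.card S.G := by
    intro K L hKL hL
    obtain ⟨b, hb, hb1⟩ := hL
    have h3 : b ∉ K := fun hbK => hb1 ((Subgroup.disjoint_def.1 hKL.disjoint) hbK hb)
    have h4 : Nat.card K ≤ Nat.card S.G := Subgroup.card_le_card_group K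
    rcases h4.lt_or_eq with h5 | h5
    · exact h5
    · exact absurd (by rw [Subgroup.eq_top_of_card_eq K h5]; trivial) h3
  refine ⟨SA, SB, n1, n2, ?_, ?_, hiso⟩
  · rw [Nat.card_congr f.toEquiv]
    exact hlt hc hBne
  · rw [Nat.card_congr g.toEquiv]
    exact hlt hc.symm hAne

/-- **Theorem X'**, the main direction -/
theorem locExt_of_sr : ∀ (n : ℕ) (S : QStruct), Nat.card S.G = n → Finite S.G → S.neg = 1 →
    GroupValued S → SR S → LocExt S := by
  intro n
  induction n using Nat.strong_induction_on with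
  | _ n ih =>
    intro S hn hf hneg hg hS
    have hf' : Finite (Additive S.G) := hf
    have hA := J1X.isAlt S hneg
    have hE := emb_of_gv S hneg hg
    have hL := linked S hE
    have hU : Univ (J1X.RR S) := univ_RR
    have hD : H61X.DomB (J1X.RR S) :=
      H61X.domB_of (domB hA hL (refl_RR hneg) (srf_of_sr hneg hg hS))
    by_cases h0 : ∀ k ∈ J1X.RR S, k = 0
    · -- no forms
      refine LocExt.loc S hf hneg ?_
      have : Subsingleton S.Q := ⟨fun β γ => by
        obtain ⟨a, b, rfl⟩ := S.surj β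
        obtain ⟨c, d, rfl⟩ := S.surj γ
        have hz : ∀ a b : S.G, S.q a b = S.zero := fun a b =>
          (comm_iff hneg hg (a := Additive.ofMul a) (b := Additive.ofMul b)).2 fun k hk => by
            rw [h0 k hk]; rfl
        rw [hz, hz]⟩
      have := Finite.card_le_one_iff_subsingleton.2 this
      omega
    push Not at h0
    obtain ⟨k, hk, hk0⟩ := h0
    obtain ⟨x, hx⟩ := exists_val hk0
    obtain ⟨E, hE0, c, hc, hc0, -⟩ := hD (k x) hx ⟨x, k, hk, rfl⟩
    by_cases hET : E = ⊤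
    · rcases hE0 with ⟨w, hw, rfl⟩ | ⟨hP, η, hη, θ, hθ, hη0, hθ0, hne, hwd⟩
      · exact loc_case hneg hg hw hET
      · exact ext_case hneg hg hη0 fun μ => hwd μ (by rw [hET]; trivial)
    · obtain ⟨F, hEF, hsp⟩ := split_one hA hL hU hD hE0
      have hF : F ≠ ⊤ := by
        rintro rfl
        have := hEF.disjoint
        rw [disjoint_top] at this
        rw [this] at hc
        exact hc0 hc
      obtain ⟨A, B, n1, n2, c1, c2, hiso⟩ := prod_case hneg hg hEF hET hF hsp
      have hgp := gv_iso (Iso.symm hiso) hg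
      have hsp' := sr_iso (Iso.symm hiso) hS
      have hcard : Finite A.G ∧ Finite B.G := by
        obtain ⟨φ, -, -⟩ := hiso
        have h5 : Finite (A.G × B.G) := Finite.of_equiv S.G φ.symm.toEquiv
        exact ⟨Finite.of_injective (fun a : A.G => (a, (1 : B.G))) (fun a b h => congrArg Prod.fst h),
          Finite.of_injective (fun a : B.G => ((1 : A.G), a)) (fun a b h => congrArg Prod.snd h)⟩
      refine LocExt.iso _ S hiso (LocExt.prod A B ?_ ?_)
      · exact ih _ (hn ▸ c1) A rfl hcard.1 n1 (gv_left hgp) (sr_left hsp')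
      · exact ih _ (hn ▸ c2) B rfl hcard.2 n2 (gv_right hgp) (sr_right hsp')

/-- **Theorem X'** -/
theorem locExt_iff (S : QStruct) (hf : Finite S.G) (hneg : S.neg = 1) :
    LocExt S ↔ GroupValued S ∧ SR S :=
  ⟨fun h => h.conv.2.2, fun h => locExt_of_sr _ S rfl hf hneg h.1 h.2⟩

end Pool.Agent.ETCO
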