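import Pool.Agent.ETCO.Cor

/-!
Finite group valued quaternionic structures with `-1 = 1` without sharp subgroups of a certain kind
are direct products of structures with at most two quaternions and of group extensions.
-/

namespace Pool.Agent.Results.MP_d26ff6_al.ProductTheorem

open QS

/-- The set of quaternions embeds into an abelian group in such a way that `q` becomes biadditive. -/
def GroupValued (S : QStruct) : Prop :=
  ∃ (B : Type) (_ : AddCommGroup B) (i : S.Q → B), Function.Injective i ∧
    ∀ a b c, i (S.q a (b * c)) = i (S.q a b) + i (S.q a c)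

/-- `x ∈ PSet S H` iff `D⟨1, -x⟩ = {y | q (x, y) = 0}` is contained in `H`. -/
def PSet (S : QStruct) (H : Subgroup S.G) : Set S.G := {x | ∀ y, S.q x y = S.zero → y ∈ H}

/-- `H` is a sharp subgroup: it has index `2`, `PSet S H` is nonempty, and the products `x * y` of
two elements of `PSet S H` generate a group containing `H` (for `-1 = 1` these products lie in `H`). -/
def Sharp (S : QStruct) (H : Subgroup S.G) : Prop :=
  H.index = 2 ∧ (PSet S H).Nonempty ∧
    H ≤ Subgroup.closure {z | ∃ x ∈ PSet S H, ∃ y ∈ PSet S H, x * y = z}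

/-- The elements `x ≠ 1` of `H` with `q (x, y) = 0` for some `y` outside `H`. -/
def ZSet (S : QStruct) (H : Subgroup S.G) : Set S.G :=
  {x | x ∈ H ∧ x ≠ 1 ∧ ∃ y, y ∉ H ∧ S.q x y = S.zero}

/-- No sharp subgroup `H` is generated by `ZSet S H`. -/
def SharpReducible (S : QStruct) : Prop :=
  ∀ H : Subgroup S.G, Sharp S H → Subgroup.closure (ZSet S H) ≠ H

/-- The finite direct products of finite structures (with `-1 = 1`) which have at most two
quaternions or are group extensions of group valued structures, up to isomorphism. -/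
inductive LocExt : QStruct → Prop
  | loc (S : QStruct) (hf : Finite S.G) (hneg : S.neg = 1) (h : Nat.card S.Q ≤ 2) : LocExt S
  | ext (S : QStruct) (hf : Finite S.G) (hneg : S.neg = 1) (h : GroupValued S) : LocExt (ext S)
  | prod (S T : QStruct) (h1 : LocExt S) (h2 : LocExt T) : LocExt (prod S T)
  | iso (S T : QStruct) (h1 : Iso S T) (h2 : LocExt S) : LocExt T

/-- `U` is a retract of `S` (with `-1 = 1`): there is an endomorphism `ρ` of the group with values in
`U`, the identity on `U`, such that `q (a, b) = 0` implies `q (ρ a, ρ b) = 0`. -/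
def Retract (S : QStruct) (U : Subgroup S.G) : Prop :=
  ∃ ρ : S.G →* S.G, (∀ a, ρ a ∈ U) ∧ (∀ u ∈ U, ρ u = u) ∧
    ∀ a b, S.q a b = S.zero → S.q (ρ a) (ρ b) = S.zero

/-- (QS4) holds inside retracts -/
theorem Retract.linked {S : QStruct} {U : Subgroup S.G} (h : Retract S U) :
    ∀ a ∈ U, ∀ b ∈ U, ∀ c ∈ U, ∀ d ∈ U, S.q a b = S.q c d →
      ∃ x ∈ U, S.q a b = S.q a x ∧ S.q c d = S.q c x := by
  have h' : REG10.Retr S U := h
  exact h'.lsub

/-- The structure induced by `S` (with `-1 = 1`) on a retract `U`: the group is `U`, the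
quaternions are the `q (a, b)` with `a, b ∈ U`. -/
def sub (S : QStruct) (hneg : S.neg = 1) (U : Subgroup S.G) (h : Retract S U) : QStruct where
  G := U
  Q := {β : S.Q // ∃ a b : U, S.q a b = β}
  neg := 1
  zero := ⟨S.zero, 1, 1, S.q_one 1⟩
  q := fun a b => ⟨S.q a b, a, b, rfl⟩
  exp_two := fun a => Subtype.ext (S.exp_two a)
  surj := fun ⟨β, a, b, h⟩ => ⟨a, b, Subtype.ext h⟩
  qs1 := fun a => Subtype.ext (by
    have := S.qs1 (a : S.G)
    rw [hneg] at this
    simpa using this)
  qs2 := fun a b => Subtype.ext (S.qs2 a b)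
  qs3 := by
    intro a b c
    rw [Subtype.mk.injEq, Subtype.mk.injEq]
    exact S.qs3 _ _ _
  qs4 := by
    intro a b c d e
    obtain ⟨x, hx, h1, h2⟩ := h.linked a a.2 b b.2 c c.2 d d.2 (congrArg Subtype.val e)
    exact ⟨⟨x, hx⟩, Subtype.ext h1, Subtype.ext h2⟩

theorem locExt_iff (S : QStruct) : LocExt S ↔ ETCO.LocExt S := by
  constructor
  · intro h
    induction h with
    | loc S hf hneg h => exact ETCO.LocExt.loc S hf hneg h
    | ext S hf hneg h => exact ETCO.LocExt.ext S hf hneg h
    | prod S T _ _ h1 h2 => exact ETCO.LocExt.prod S T h1 h2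
    | iso S T hi _ h => exact ETCO.LocExt.iso S T hi h
  · intro h
    induction h with
    | loc S hf hneg h => exact LocExt.loc S hf hneg h
    | ext S hf hneg h => exact LocExt.ext S hf hneg h
    | prod S T _ _ h1 h2 => exact LocExt.prod S T h1 h2
    | iso S T hi _ h => exact LocExt.iso S T hi h

/-- Let `S` be a finite group valued structure with `-1 = 1`.  (1) `S` is a direct product of
structures with at most two quaternions and of group extensions if and only if no sharp subgroup `H`
is generated by `ZSet S H`.  (2) `S` is of elementary type if and only if this holds in every retract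
of `S`.  (3) All such `S` are of elementary type if and only if this holds in all of them. -/
theorem result :
    (∀ S : QStruct, Finite S.G → S.neg = 1 → (LocExt S ↔ GroupValued S ∧ SharpReducible S)) ∧
    (∀ (S : QStruct) (hneg : S.neg = 1), Finite S.G → GroupValued S →
      (ElemType S ↔ ∀ (U : Subgroup S.G) (h : Retract S U), SharpReducible (sub S hneg U h))) ∧
    ((∀ S : QStruct, Finite S.G → S.neg = 1 → GroupValued S → ElemType S) ↔
      ∀ S : QStruct, Finite S.G → S.neg = 1 → GroupValued S → SharpReducible S) := by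
  refine ⟨fun S hf hneg => (locExt_iff S).trans (ETCO.locExt_iff S hf hneg), ?_, ETCO.cor3⟩
  intro S hneg hf hg
  exact ETCO.cor2 S hf hneg hg

end Pool.Agent.Results.MP_d26ff6_al.ProductTheorem
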